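import Mathlib
import Pool.Agent.Work.MP_3d425c_gt.Ta.Defs
import Pool.Agent.Work.MP_3d425c_gt.Ht.Prep
import Pool.Agent.Work.MP_3d425c_gt.Cy.U2

-- merged part: Pool.Agent.Work.MP_3d425c_gt.Co.Col
section
/-! Collapse of a finite graph in a leaf: no finite complementary component, two loops each
crossing its own arc once. Model independent. -/

namespace Pool.Agent.Work.MP_3d425c_gt.Co

open Relation

/-- Nodes `V` and usable arcs `A` upstairs, arcs `B` and cells `C` downstairs. -/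
structure Cx (G V A B C : Type*) [Group G] [MulAction G V] [MulAction G A] where
  src : A → V
  tgt : A → V
  pr : A → B
  cell : B → Bool → C
  Q : V → V → Prop
  M : C → C → Prop
  src_smul : ∀ (g : G) a, src (g • a) = g • src a
  tgt_smul : ∀ (g : G) a, tgt (g • a) = g • tgt a
  pr_smul : ∀ (g : G) a, pr (g • a) = pr a
  pr_eq : ∀ a a', pr a = pr a' → ∃ g : G, a' = g • a
  Q_smul : ∀ (g : G) x y, Q x y → Q (g • x) (g • y)

variable {G V A B C : Type*} [Group G] [MulAction G V] [MulAction G A]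

namespace Cx

variable (X : Cx G V A B C)

/-- joined by `Q` steps and arcs with property `ok` -/
def P (ok : A → Prop) : V → V → Prop :=
  EqvGen (fun x y => X.Q x y ∨ ∃ a, ok a ∧ X.src a = x ∧ X.tgt a = y)

/-- dual step through an `M` step or an arc outside `Z` -/
def Adj (Z : Set B) (c c' : C) : Prop :=
  X.M c c' ∨ X.M c' c ∨ ∃ a b, X.pr a ∉ Z ∧ X.cell (X.pr a) b = c ∧ X.cell (X.pr a) (!b) = c'

/-- cells reached from `c` outside `Z` -/
def Rch (Z : Set B) (c : C) : Set C := {c' | ReflTransGen (X.Adj Z) c c'}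

/-- every arc can be pushed across each of its two cells -/
def BD : Prop := ∀ e b, X.P (fun a => ∃ b', (X.pr a, b') ≠ (X.pr e, b) ∧
  EqvGen X.M (X.cell (X.pr a) b') (X.cell (X.pr e) b)) (X.src e) (X.tgt e)

variable {X}

theorem P_refl (ok) (x : V) : X.P ok x x := EqvGen.refl x
theorem P_symm {ok} {x y : V} (h : X.P ok x y) : X.P ok y x := EqvGen.symm _ _ h
theorem P_trans {ok} {x y z : V} (h : X.P ok x y) (k : X.P ok y z) : X.P ok x z :=
  EqvGen.trans _ _ _ h k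
theorem P_arc {ok : A → Prop} {a : A} (h : ok a) : X.P ok (X.src a) (X.tgt a) :=
  EqvGen.rel _ _ (Or.inr ⟨a, h, rfl, rfl⟩)
theorem P_Q {ok : A → Prop} {x y : V} (h : X.Q x y) : X.P ok x y := EqvGen.rel _ _ (Or.inl h)

theorem P_lift {ok ok' : A → Prop} (h : ∀ a, ok a → X.P ok' (X.src a) (X.tgt a)) {x y : V}
    (k : X.P ok x y) : X.P ok' x y := by
  induction k with
  | rel x y k =>
    rcases k with k | ⟨a, ha, rfl, rfl⟩
    · exact P_Q k
    · exact h a ha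
  | refl x => exact P_refl _ _
  | symm x y _ ih => exact P_symm ih
  | trans x y z _ _ i j => exact P_trans i j

theorem P_mono {ok ok' : A → Prop} (h : ∀ a, ok a → ok' a) {x y : V} (k : X.P ok x y) :
    X.P ok' x y := P_lift (fun a ha => P_arc (h a ha)) k

theorem P_smul {S : B → Prop} (g : G) {x y : V} (k : X.P (fun a => S (X.pr a)) x y) :
    X.P (fun a => S (X.pr a)) (g • x) (g • y) := by
  induction k with
  | rel x y k =>
    rcases k with k | ⟨a, ha, rfl, rfl⟩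
    · exact P_Q (X.Q_smul g _ _ k)
    · rw [← X.src_smul, ← X.tgt_smul]
      exact P_arc (by simpa only [X.pr_smul] using ha)
  | refl x => exact P_refl _ _
  | symm x y _ ih => exact P_symm ih
  | trans x y z _ _ i j => exact P_trans i j

theorem P_fin {ok : A → Prop} {x y : V} (k : X.P ok x y) :
    ∃ F : Finset B, (∀ z ∈ F, ∃ a, X.pr a = z ∧ ok a ∧ X.P (fun _ => True) x (X.src a)) ∧
      X.P (fun a => X.pr a ∈ F) x y := by
  classical
  induction k with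
  | rel x y k =>
    rcases k with k | ⟨a, ha, rfl, rfl⟩
    · exact ⟨∅, by simp, P_Q k⟩
    · exact ⟨{X.pr a}, fun z hz => ⟨a, (Finset.mem_singleton.1 hz).symm, ha, P_refl _ _⟩,
        P_arc (Finset.mem_singleton_self _)⟩
  | refl x => exact ⟨∅, by simp, P_refl _ _⟩
  | symm x y h ih =>
    obtain ⟨F, h1, h2⟩ := ih
    refine ⟨F, fun z hz => ?_, P_symm h2⟩
    obtain ⟨a, e1, e2, e3⟩ := h1 z hz
    exact ⟨a, e1, e2, P_trans (P_symm (P_mono (fun _ _ => trivial) h2)) e3⟩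
  | trans x y z h _ i j =>
    obtain ⟨F, h1, h2⟩ := i
    obtain ⟨F', h1', h2'⟩ := j
    refine ⟨F ∪ F', fun w hw => ?_, P_trans (P_mono (fun a ha => Finset.mem_union_left _ ha) h2)
      (P_mono (fun a ha => Finset.mem_union_right _ ha) h2')⟩
    rcases Finset.mem_union.1 hw with hw | hw
    · exact h1 w hw
    · obtain ⟨a, e1, e2, e3⟩ := h1' w hw
      exact ⟨a, e1, e2, P_trans (P_mono (fun _ _ => trivial) h2) e3⟩

theorem Adj_symm {Z : Set B} {c c' : C} (h : X.Adj Z c c') : X.Adj Z c' c := by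
  rcases h with h | h | ⟨a, b, h1, h2, h3⟩
  · exact Or.inr (Or.inl h)
  · exact Or.inl h
  · exact Or.inr (Or.inr ⟨a, !b, h1, h3, by simpa using h2⟩)

theorem Rch_symm {Z : Set B} {c c' : C} (h : c' ∈ X.Rch Z c) : c ∈ X.Rch Z c' := by
  induction h with
  | refl => exact ReflTransGen.refl
  | tail _ k ih => exact ReflTransGen.head (Adj_symm k) ih

theorem Rch_eq {Z : Set B} {c c' : C} (h : c' ∈ X.Rch Z c) : X.Rch Z c' = X.Rch Z c :=
  Set.Subset.antisymm (fun _ k => ReflTransGen.trans h k)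
    (fun _ k => ReflTransGen.trans (Rch_symm h) k)

theorem Rch_M {Z : Set B} {c c' : C} (h : EqvGen X.M c c') : c' ∈ X.Rch Z c := by
  induction h with
  | rel x y k => exact ReflTransGen.single (Or.inl k)
  | refl x => exact ReflTransGen.refl
  | symm x y _ ih => exact Rch_symm ih
  | trans x y z _ _ i j => exact ReflTransGen.trans i j

theorem Rch_mono {Z Z' : Set B} (h : Z ⊆ Z') (c : C) : X.Rch Z' c ⊆ X.Rch Z c := by
  intro c' k
  induction k with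
  | refl => exact ReflTransGen.refl
  | tail _ hxy ih =>
    refine ReflTransGen.tail ih ?_
    rcases hxy with h1 | h1 | ⟨a, b, h1, h2, h3⟩
    · exact Or.inl h1
    · exact Or.inr (Or.inl h1)
    · exact Or.inr (Or.inr ⟨a, b, fun k => h1 (h k), h2, h3⟩)

/-- cells cut off from infinity by `Z` -/
def U (X : Cx G V A B C) (Z : Set B) : Set C :=
  {c | (X.Rch ∅ c).Infinite ∧ (X.Rch Z c).Finite}

/-- a set `S` closed under steps outside `Z`, left by the full graph, is left through `Z` -/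
theorem exit {Z : Set B} {S : Set C} (hS : ∀ x ∈ S, ∀ y, X.Adj Z x y → y ∈ S) {c c' : C}
    (hc : c ∈ S) (h : c' ∈ X.Rch ∅ c) (hc' : c' ∉ S) :
    ∃ a b, X.pr a ∈ Z ∧ X.cell (X.pr a) b ∈ S ∧ X.cell (X.pr a) (!b) ∉ S := by
  induction h with
  | refl => exact absurd hc hc'
  | @tail x y _ k ih =>
    by_cases hx : x ∈ S
    · rcases k with k | k | ⟨a, b, -, h2, h3⟩
      · exact absurd (hS x hx y (Or.inl k)) hc'
      · exact absurd (hS x hx y (Or.inr (Or.inl k))) hc'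
      · by_cases hz : X.pr a ∈ Z
        · exact ⟨a, b, hz, h2 ▸ hx, h3 ▸ hc'⟩
        · exact absurd (hS x hx y (Or.inr (Or.inr ⟨a, b, hz, h2, h3⟩))) hc'
    · exact ih hx

theorem U_finite (Z : Finset B) : (X.U Z).Finite := by
  have h1 : (⋃ z ∈ Z, ⋃ b : Bool, {c | c ∈ X.Rch Z (X.cell z b) ∧
      (X.Rch Z (X.cell z b)).Finite}).Finite := by
    refine Set.Finite.biUnion Z.finite_toSet (fun z _ => Set.finite_iUnion (fun b => ?_))
    by_cases h : (X.Rch Z (X.cell z b)).Finite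
    · exact h.subset (fun c hc => hc.1)
    · exact Set.finite_empty.subset (fun c hc => (h hc.2).elim)
  refine h1.subset (fun c hc => ?_)
  obtain ⟨c', k1, k2⟩ := hc.1.exists_notMem_finite hc.2
  obtain ⟨a, b, e1, e2, -⟩ := exit (Z := Z) (S := X.Rch Z c)
    (fun x hx y hy => ReflTransGen.tail hx hy) ReflTransGen.refl k1 k2
  simp only [Set.mem_iUnion]
  exact ⟨X.pr a, e1, b, Rch_symm e2, by rw [Rch_eq e2]; exact hc.2⟩

theorem U_closed {Z : Set B} {x y : C} (hx : x ∈ X.U Z) (h : y ∈ X.Rch Z x) : y ∈ X.U Z :=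
  ⟨by rw [Rch_eq (Rch_mono (Set.empty_subset _) _ h)]; exact hx.1, by rw [Rch_eq h]; exact hx.2⟩

/-- a property of arcs that passes to the other arcs of a cell -/
def Her (X : Cx G V A B C) (On : B → Prop) : Prop :=
  ∀ e a b b', On (X.pr e) → EqvGen X.M (X.cell (X.pr a) b') (X.cell (X.pr e) b) → On (X.pr a)

theorem swap (hB : X.BD) {On : B → Prop} (hO : X.Her On) (p : V) (Z : Finset B)
    (hZ : ∀ z ∈ Z, On z ∧ ∃ a, X.pr a = z ∧ X.P (fun _ => True) p (X.src a))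
    (hU : (X.U Z).Nonempty) :
    ∃ Z' : Finset B, (∀ z ∈ Z', On z ∧ ∃ a, X.pr a = z ∧ X.P (fun _ => True) p (X.src a)) ∧
      (∀ x y, X.P (fun a => X.pr a ∈ Z) x y → X.P (fun a => X.pr a ∈ Z') x y) ∧
      X.U Z' ⊂ X.U Z := by
  classical
  obtain ⟨c0, hc0⟩ := hU
  obtain ⟨c1, k1, k2⟩ := hc0.1.exists_notMem_finite (U_finite (X := X) Z)
  obtain ⟨e', b, e1, e2, e3⟩ := exit (Z := Z) (S := X.U Z)
    (fun x hx y hy => U_closed hx (ReflTransGen.single hy)) hc0 k1 k2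
  obtain ⟨hon, e, he, hp⟩ := hZ _ e1
  rw [← he] at e1 e2 e3 hon
  obtain ⟨F, f1, f2⟩ := P_fin (hB e b)
  have hF : ∀ z ∈ F, z ≠ X.pr e ∧ ∃ b', X.cell z b' ∈ X.U Z := by
    intro z hz
    obtain ⟨a, rfl, ⟨b', n1, n2⟩, -⟩ := f1 z hz
    have hu : X.cell (X.pr a) b' ∈ X.U Z := U_closed e2 (Rch_symm (Rch_M n2))
    refine ⟨fun q => ?_, b', hu⟩
    rw [q] at n1 hu
    have : b' = !b := by
      cases b <;> cases b' <;> simp_all
    exact e3 (this ▸ hu)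
  have hne : X.pr e ∉ ((Z.erase (X.pr e) ∪ F : Finset B) : Set B) := by
    intro h
    rcases Finset.mem_union.1 (Finset.mem_coe.1 h) with h | h
    · exact (Finset.mem_erase.1 h).1 rfl
    · exact (hF _ h).1 rfl
  have hout : ∀ x, x ∉ X.U Z → X.Rch Z x ⊆ X.Rch (Z.erase (X.pr e) ∪ F : Finset B) x := by
    intro x hx y hy
    induction hy with
    | refl => exact ReflTransGen.refl
    | @tail u v huv k ih =>
      refine ReflTransGen.tail ih ?_
      rcases k with k | k | ⟨a, b1, h1, h2, h3⟩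
      · exact Or.inl k
      · exact Or.inr (Or.inl k)
      · refine Or.inr (Or.inr ⟨a, b1, fun h => ?_, h2, h3⟩)
        rcases Finset.mem_union.1 (Finset.mem_coe.1 h) with h | h
        · exact h1 (Finset.mem_coe.2 (Finset.mem_erase.1 h).2)
        · obtain ⟨-, b', hb'⟩ := hF _ h
          have hu : u ∉ X.U Z := fun q => hx (U_closed q (Rch_symm huv))
          have hv : v ∉ X.U Z := fun q => hx (U_closed q (Rch_symm
            (ReflTransGen.tail huv (Or.inr (Or.inr ⟨a, b1, h1, h2, h3⟩)))))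
          by_cases q : b' = b1
          · exact hu (h2 ▸ q ▸ hb')
          · have : b' = !b1 := by cases b1 <;> cases b' <;> simp_all
            exact hv (h3 ▸ this ▸ hb')
  have hsub : X.U (Z.erase (X.pr e) ∪ F : Finset B) ⊆ X.U Z := by
    intro x hx
    by_contra q
    exact q ⟨hx.1, hx.2.subset (hout x q)⟩
  refine ⟨Z.erase (X.pr e) ∪ F, fun z hz => ?_, fun x y h => P_lift (fun a ha => ?_) h,
    hsub, fun q => ?_⟩
  · rcases Finset.mem_union.1 hz with hz | hz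
    · exact hZ z (Finset.mem_erase.1 hz).2
    · obtain ⟨a, q1, ⟨b', -, q2⟩, q3⟩ := f1 z hz
      exact ⟨q1 ▸ hO e a b b' hon q2, a, q1, P_trans hp q3⟩
  · by_cases q : X.pr a = X.pr e
    · obtain ⟨g, rfl⟩ := X.pr_eq _ _ q.symm
      rw [X.src_smul, X.tgt_smul]
      exact P_smul (S := fun z => z ∈ Z.erase (X.pr e) ∪ F) g
        (P_mono (fun a ha => Finset.mem_union_right _ ha) f2)
    · exact P_arc (Finset.mem_union_left _ (Finset.mem_erase.2 ⟨q, ha⟩))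
  · exact e3 (hsub (U_closed (q e2)
      (ReflTransGen.single (Or.inr (Or.inr ⟨e, b, hne, rfl, rfl⟩)))))

theorem clear (hB : X.BD) {On : B → Prop} (hO : X.Her On) (p : V) (n : ℕ) : ∀ (Z : Finset B),
    (∀ z ∈ Z, On z ∧ ∃ a, X.pr a = z ∧ X.P (fun _ => True) p (X.src a)) → (X.U Z).ncard ≤ n →
    ∃ Z' : Finset B, (∀ z ∈ Z', On z ∧ ∃ a, X.pr a = z ∧ X.P (fun _ => True) p (X.src a)) ∧
      (∀ x y, X.P (fun a => X.pr a ∈ Z) x y → X.P (fun a => X.pr a ∈ Z') x y) ∧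
      X.U Z' = ∅ := by
  induction n with
  | zero =>
    intro Z hZ hn
    exact ⟨Z, hZ, fun _ _ h => h, (Set.ncard_eq_zero (U_finite Z)).1 (Nat.le_zero.1 hn)⟩
  | succ n ih =>
    intro Z hZ hn
    rcases (X.U Z).eq_empty_or_nonempty with h | h
    · exact ⟨Z, hZ, fun _ _ h => h, h⟩
    · obtain ⟨Z1, a1, a2, a3⟩ := swap hB hO p Z hZ h
      have := Set.ncard_lt_ncard a3 (U_finite Z)
      obtain ⟨Z2, b1, b2, b3⟩ := ih Z1 a1 (by omega)
      exact ⟨Z2, b1, fun x y h => b2 _ _ (a2 _ _ h), b3⟩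

/-- an equivariant labelling, constant along `Q` -/
def Lab (X : Cx G V A B C) (φ : V → G) : Prop :=
  (∀ (g : G) x, φ (g • x) = g * φ x) ∧ ∀ x y, X.Q x y → φ x = φ y

/-- arcs of `Z` along which `φ` is constant -/
def Tr (X : Cx G V A B C) (Z : Finset B) (φ : V → G) : Set B :=
  {z | z ∈ Z ∧ ∀ a, X.pr a = z → φ (X.src a) = φ (X.tgt a)}

theorem P_lab {Z : Finset B} {φ : V → G} (h : X.Lab φ) {x y : V}
    (k : X.P (fun a => X.pr a ∈ X.Tr Z φ) x y) : φ x = φ y := by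
  induction k with
  | rel x y k =>
    rcases k with k | ⟨a, ha, rfl, rfl⟩
    · exact h.2 _ _ k
    · exact ha.2 a rfl
  | refl x => rfl
  | symm x y _ ih => exact ih.symm
  | trans x y z _ _ i j => exact i.trans j

theorem best (Z : Finset B) {φ0 : V → G} (h0 : X.Lab φ0) : ∃ φ, X.Lab φ ∧
    ∀ e, X.pr e ∈ Z → ∃ g : G, X.P (fun a => X.pr a ∈ X.Tr Z φ) (X.src e) (g • X.tgt e) := by
  classical
  have hfin : ∀ φ, (X.Tr Z φ).Finite := fun φ => Z.finite_toSet.subset (fun z hz => hz.1)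
  have hbd : ∀ φ, (X.Tr Z φ).ncard ≤ Z.card := fun φ => by
    rw [← Set.ncard_coe_finset]
    exact Set.ncard_le_ncard (fun z hz => hz.1) Z.finite_toSet
  obtain ⟨n, ⟨φ, hφ, rfl⟩, hmax⟩ := Set.Finite.exists_maximalFor id
    {n | ∃ φ, X.Lab φ ∧ (X.Tr Z φ).ncard = n}
    ((Set.finite_Iic Z.card).subset (by rintro n ⟨φ, -, rfl⟩; exact hbd φ)) ⟨_, φ0, h0, rfl⟩
  refine ⟨φ, hφ, fun e he => ?_⟩
  by_contra hn
  push Not at hn
  set S : V → Prop := fun x => ∃ g : G, X.P (fun a => X.pr a ∈ X.Tr Z φ) x (g • X.tgt e) with hS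
  have S1 : ∀ (g : G) x, S x → S (g • x) := by
    rintro g x ⟨k, hk⟩
    exact ⟨g * k, by rw [mul_smul]; exact P_smul (S := fun z => z ∈ X.Tr Z φ) g hk⟩
  have S1' : ∀ (g : G) x, S (g • x) ↔ S x := fun g x =>
    ⟨fun h => by simpa using S1 g⁻¹ _ h, S1 g x⟩
  have S2 : ∀ x y, X.P (fun a => X.pr a ∈ X.Tr Z φ) x y → (S x ↔ S y) := fun x y h =>
    ⟨fun ⟨k, hk⟩ => ⟨k, P_trans (P_symm h) hk⟩, fun ⟨k, hk⟩ => ⟨k, P_trans h hk⟩⟩
  have St : S (X.tgt e) := ⟨1, by rw [one_smul]; exact P_refl _ _⟩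
  have Ss : ¬ S (X.src e) := fun ⟨k, hk⟩ => hn k hk
  set k : G := (φ (X.tgt e))⁻¹ * φ (X.src e) with hk
  set ψ : V → G := fun x => if S x then φ x * k else φ x with hψ
  have c1 : ∀ x y, X.P (fun a => X.pr a ∈ X.Tr Z φ) x y → ψ x = ψ y := fun x y h => by
    simp only [hψ, S2 x y h, P_lab hφ h]
  have hψl : X.Lab ψ := ⟨fun g x => by
    simp only [hψ, S1' g x, hφ.1 g x]
    split_ifs
    · rw [mul_assoc]
    · rfl, fun x y h => c1 x y (P_Q h)⟩
  have c2 : ψ (X.src e) = ψ (X.tgt e) := by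
    simp only [hψ, if_pos St, if_neg Ss, hk, mul_inv_cancel_left]
  have hlt : X.Tr Z φ ⊂ X.Tr Z ψ := by
    refine ⟨fun z hz => ⟨hz.1, fun a ha => c1 _ _ (P_arc (ha ▸ hz))⟩, fun q => ?_⟩
    have : X.pr e ∈ X.Tr Z ψ := ⟨he, fun a ha => by
      obtain ⟨g, rfl⟩ := X.pr_eq _ _ ha.symm
      rw [X.src_smul, X.tgt_smul, hψl.1, hψl.1, c2]⟩
    exact hn 1 (by rw [one_smul]; exact P_arc (q this))
  have h1 := Set.ncard_lt_ncard hlt (hfin ψ)
  have h2 := hmax (j := (X.Tr Z ψ).ncard) ⟨ψ, hψl, rfl⟩ h1.le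
  exact absurd h2 (not_le.2 h1)

theorem two (Z : Finset B) {φ0 : V → G} (h0 : X.Lab φ0) {p : V} {g1 g2 : G}
    (h1 : X.P (fun a => X.pr a ∈ Z) p (g1 • p)) (h2 : X.P (fun a => X.pr a ∈ Z) p (g2 • p))
    (hne : g1 * g2 ≠ g2 * g1) :
    ∃ (ea eb : A) (ga gb : G), X.pr ea ∈ Z ∧ X.pr eb ∈ Z ∧ X.pr ea ≠ X.pr eb ∧
      ga * gb ≠ gb * ga ∧
      X.P (fun a => X.pr a ∈ Z ∧ X.pr a ≠ X.pr ea ∧ X.pr a ≠ X.pr eb) p (X.src ea) ∧
      X.P (fun a => X.pr a ∈ Z ∧ X.pr a ≠ X.pr ea ∧ X.pr a ≠ X.pr eb) (X.tgt ea) (ga • p) ∧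
      X.P (fun a => X.pr a ∈ Z ∧ X.pr a ≠ X.pr ea ∧ X.pr a ≠ X.pr eb) p (X.src eb) ∧
      X.P (fun a => X.pr a ∈ Z ∧ X.pr a ≠ X.pr ea ∧ X.pr a ≠ X.pr eb) (X.tgt eb) (gb • p) := by
  obtain ⟨φ, hφ, hA⟩ := best (X := X) Z h0
  set R := X.P (fun a => X.pr a ∈ X.Tr Z φ) with hR
  have Rs : ∀ (g : G) {x y : V}, R x y → R (g • x) (g • y) := fun g _ _ h =>
    P_smul (S := fun z => z ∈ X.Tr Z φ) g h
  set gens : Set G := {g | ∃ e, X.pr e ∈ Z ∧ X.pr e ∉ X.Tr Z φ ∧ R p (X.src e) ∧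
    R (X.tgt e) (g • p)} with hg
  set H := Subgroup.closure gens with hH
  have hcl : ∀ x y, X.P (fun a => X.pr a ∈ Z) x y →
      ((∃ h ∈ H, R x (h • p)) ↔ ∃ h ∈ H, R y (h • p)) := by
    intro x y k
    induction k with
    | rel x y k =>
      have easy : R x y → ((∃ h ∈ H, R x (h • p)) ↔ ∃ h ∈ H, R y (h • p)) := fun r =>
        ⟨fun ⟨h, a, b⟩ => ⟨h, a, P_trans (P_symm r) b⟩, fun ⟨h, a, b⟩ => ⟨h, a, P_trans r b⟩⟩
      rcases k with k | ⟨e, he, rfl, rfl⟩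
      · exact easy (P_Q k)
      · by_cases ht : X.pr e ∈ X.Tr Z φ
        · exact easy (P_arc ht)
        · obtain ⟨k, hk⟩ := hA e he
          have key : ∀ u v : G, R (X.src e) (u • p) → R (X.tgt e) (v • p) → u⁻¹ * v ∈ H := by
            intro u v hu hv
            refine Subgroup.subset_closure ⟨u⁻¹ • e, by rwa [X.pr_smul], by rwa [X.pr_smul],
              ?_, ?_⟩
            · rw [X.src_smul]
              simpa using P_symm (Rs u⁻¹ hu)
            · rw [X.tgt_smul, mul_smul]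
              exact Rs u⁻¹ hv
          constructor
          · rintro ⟨h, a, b⟩
            have q : R (X.tgt e) ((k⁻¹ * h) • p) := by
              have := Rs k⁻¹ (P_trans (P_symm hk) b)
              rwa [inv_smul_smul, ← mul_smul] at this
            exact ⟨k⁻¹ * h, by simpa using H.mul_mem a (key _ _ b q), q⟩
          · rintro ⟨h, a, b⟩
            have q : R (X.src e) ((k * h) • p) := by
              rw [mul_smul]
              exact P_trans hk (Rs k b)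
            have := H.mul_mem a (H.inv_mem (key _ _ q b))
            exact ⟨k * h, by simpa using this, q⟩
    | refl x => exact Iff.rfl
    | symm x y _ ih => exact ih.symm
    | trans x y z _ _ i j => exact i.trans j
  have hmem : ∀ g : G, X.P (fun a => X.pr a ∈ Z) p (g • p) → g ∈ H := by
    intro g hgp
    obtain ⟨h, a, b⟩ := (hcl _ _ hgp).1 ⟨1, H.one_mem, by rw [one_smul]; exact P_refl _ _⟩
    have := P_lab hφ b
    rw [hφ.1, hφ.1] at this
    rwa [mul_right_cancel this]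
  have hex : ∃ ga ∈ gens, ∃ gb ∈ gens, ga * gb ≠ gb * ga := by
    by_contra q
    push Not at q
    have c1 : H ≤ Subgroup.centralizer gens :=
      (Subgroup.closure_le _).2 (fun x hx y hy => q y hy x hx)
    have c2 : H ≤ Subgroup.centralizer (H : Set G) :=
      (Subgroup.closure_le _).2 (fun x hx y hy => (c1 hy x hx).symm)
    exact hne (c2 (hmem g2 h2) g1 (hmem g1 h1))
  obtain ⟨ga, ⟨ea, a1, a2, a3, a4⟩, gb, ⟨eb, b1, b2, b3, b4⟩, hab⟩ := hex
  have up : ∀ {x y : V}, R x y →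
      X.P (fun a => X.pr a ∈ Z ∧ X.pr a ≠ X.pr ea ∧ X.pr a ≠ X.pr eb) x y := fun h =>
    P_mono (fun a ha => ⟨ha.1, fun q => a2 (q ▸ ha), fun q => b2 (q ▸ ha)⟩) h
  refine ⟨ea, eb, ga, gb, a1, b1, fun q => hab ?_, hab, up a3, up a4, up b3, up b4⟩
  obtain ⟨k, rfl⟩ := X.pr_eq _ _ q
  have u1 := P_lab hφ a3
  have u2 := P_lab hφ a4
  have u3 := P_lab hφ b3
  have u4 := P_lab hφ b4
  rw [X.src_smul, hφ.1, ← u1] at u3
  have hk : k = 1 := by simpa using u3.symm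
  rw [X.tgt_smul, hφ.1, u2, hk, one_mul, hφ.1, hφ.1] at u4
  rw [mul_right_cancel u4]

/-- COLLAPSE, keeping a hereditary property `On` of arcs -/
theorem collapse_on (hB : X.BD) {On : B → Prop} (hO : X.Her On) {φ0 : V → G} (h0 : X.Lab φ0)
    {p : V} {g1 g2 : G} (h1 : X.P (fun a => On (X.pr a)) p (g1 • p))
    (h2 : X.P (fun a => On (X.pr a)) p (g2 • p)) (hne : g1 * g2 ≠ g2 * g1) :
    ∃ (Z : Finset B) (ea eb : A) (ga gb : G),
      (∀ z ∈ Z, On z ∧ ∃ a, X.pr a = z ∧ X.P (fun _ => True) p (X.src a)) ∧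
      (∀ c, (X.Rch ∅ c).Infinite → (X.Rch Z c).Infinite) ∧
      X.pr ea ∈ Z ∧ X.pr eb ∈ Z ∧ X.pr ea ≠ X.pr eb ∧ ga * gb ≠ gb * ga ∧
      X.P (fun a => X.pr a ∈ Z ∧ X.pr a ≠ X.pr ea ∧ X.pr a ≠ X.pr eb) p (X.src ea) ∧
      X.P (fun a => X.pr a ∈ Z ∧ X.pr a ≠ X.pr ea ∧ X.pr a ≠ X.pr eb) (X.tgt ea) (ga • p) ∧
      X.P (fun a => X.pr a ∈ Z ∧ X.pr a ≠ X.pr ea ∧ X.pr a ≠ X.pr eb) p (X.src eb) ∧
      X.P (fun a => X.pr a ∈ Z ∧ X.pr a ≠ X.pr ea ∧ X.pr a ≠ X.pr eb) (X.tgt eb) (gb • p) := by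
  classical
  obtain ⟨F1, a1, a2⟩ := P_fin h1
  obtain ⟨F2, b1, b2⟩ := P_fin h2
  obtain ⟨Z, z1, z2, z3⟩ := clear hB hO p _ (F1 ∪ F2) (fun z hz => by
    rcases Finset.mem_union.1 hz with hz | hz
    · obtain ⟨a, q1, q2, q3⟩ := a1 z hz
      exact ⟨q1 ▸ q2, a, q1, q3⟩
    · obtain ⟨a, q1, q2, q3⟩ := b1 z hz
      exact ⟨q1 ▸ q2, a, q1, q3⟩) le_rfl
  obtain ⟨ea, eb, ga, gb, h⟩ := two Z h0
    (z2 _ _ (P_mono (fun a ha => Finset.mem_union_left _ ha) a2))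
    (z2 _ _ (P_mono (fun a ha => Finset.mem_union_right _ ha) b2)) hne
  refine ⟨Z, ea, eb, ga, gb, z1, fun c hc q => ?_, h⟩
  have : c ∈ X.U Z := ⟨hc, q⟩
  rw [z3] at this
  exact this

/-- lying on the dual leaf of a cell is hereditary -/
theorem her_rch (u : C) : X.Her (fun z => X.cell z false ∈ X.Rch ∅ u) := by
  have key : ∀ a b, X.cell (X.pr a) b ∈ X.Rch ∅ (X.cell (X.pr a) false) := fun a b => by
    cases b
    · exact ReflTransGen.refl
    · exact ReflTransGen.single (Or.inr (Or.inr ⟨a, false, fun h => h, rfl, rfl⟩))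
  intro e a b b' h k
  exact ReflTransGen.trans (ReflTransGen.trans (ReflTransGen.trans h (key e b))
    (Rch_symm (Rch_M k))) (Rch_symm (key a b'))

/-- COLLAPSE -/
theorem collapse (hB : X.BD) {φ0 : V → G} (h0 : X.Lab φ0) {p : V} {g1 g2 : G}
    (h1 : X.P (fun _ => True) p (g1 • p)) (h2 : X.P (fun _ => True) p (g2 • p))
    (hne : g1 * g2 ≠ g2 * g1) :
    ∃ (Z : Finset B) (ea eb : A) (ga gb : G),
      (∀ z ∈ Z, ∃ a, X.pr a = z ∧ X.P (fun _ => True) p (X.src a)) ∧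
      (∀ c, (X.Rch ∅ c).Infinite → (X.Rch Z c).Infinite) ∧
      X.pr ea ∈ Z ∧ X.pr eb ∈ Z ∧ X.pr ea ≠ X.pr eb ∧ ga * gb ≠ gb * ga ∧
      X.P (fun a => X.pr a ∈ Z ∧ X.pr a ≠ X.pr ea ∧ X.pr a ≠ X.pr eb) p (X.src ea) ∧
      X.P (fun a => X.pr a ∈ Z ∧ X.pr a ≠ X.pr ea ∧ X.pr a ≠ X.pr eb) (X.tgt ea) (ga • p) ∧
      X.P (fun a => X.pr a ∈ Z ∧ X.pr a ≠ X.pr ea ∧ X.pr a ≠ X.pr eb) p (X.src eb) ∧
      X.P (fun a => X.pr a ∈ Z ∧ X.pr a ≠ X.pr ea ∧ X.pr a ≠ X.pr eb) (X.tgt eb) (gb • p) := by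
  obtain ⟨Z, ea, eb, ga, gb, z1, h⟩ := collapse_on (On := fun _ => True) hB
    (fun _ _ _ _ _ _ => trivial) h0 h1 h2 hne
  exact ⟨Z, ea, eb, ga, gb, fun z hz => (z1 z hz).2, h⟩

/-- a free action has an equivariant labelling -/
theorem exists_lab (hf : ∀ (g : G) (x : V), g • x = x → g = 1) :
    ∃ φ : V → G, ∀ (g : G) x, φ (g • x) = g * φ x := by
  have h : ∀ x : V, ∃ g : G, g • (Quotient.mk (MulAction.orbitRel G V) x).out = x := fun x => by
    have := (MulAction.orbitRel G V).symm (Quotient.mk_out (s := MulAction.orbitRel G V) x)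
    exact MulAction.mem_orbit_iff.1 (MulAction.orbitRel_apply.1 this)
  choose φ hφ using h
  refine ⟨φ, fun g x => ?_⟩
  have e : Quotient.mk (MulAction.orbitRel G V) (g • x) = Quotient.mk (MulAction.orbitRel G V) x :=
    Quotient.sound (MulAction.orbitRel_apply.2 (MulAction.mem_orbit x g))
  have h1 := hφ (g • x)
  rw [e] at h1
  have h2 : ((g * φ x)⁻¹ * φ (g • x)) • (Quotient.mk (MulAction.orbitRel G V) x).out =
      (Quotient.mk (MulAction.orbitRel G V) x).out := by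
    rw [mul_smul, h1, inv_smul_eq_iff, mul_smul, hφ x]
  exact (inv_mul_eq_one.1 (hf _ _ h2)).symm

end Cx

end Pool.Agent.Work.MP_3d425c_gt.Co
end

-- merged part: Pool.Agent.Work.MP_3d425c_gt.To.ModA
section
/-! The generic step and the collapse, relative to a graph that is already chosen. -/

namespace Pool.Agent.Work.MP_3d425c_gt.Gn
open Set Filter Topology

section Tree
variable {G X A : Type*} {src tgt : A → X} {Γ : Set A} [Group G] [MulAction G X] [MulAction G A]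

/-- two loops, each through its own arc exactly once -/
def Two (G : Type*) [Group G] [MulAction G X] [MulAction G A] (src tgt : A → X) (Γ : Set A)
    (x₀ : X) : Prop :=
  ∃ a ∈ Γ, ∃ b ∈ Γ, (∀ k : G, k • a ≠ b) ∧ ∃ k l : G,
    ∀ T, T = {e | e ∈ Γ ∧ (∀ k : G, k • a ≠ e) ∧ ∀ k : G, k • b ≠ e} →
      Conn src tgt T x₀ (src a) ∧ Conn src tgt T (tgt a) (k • x₀) ∧
      Conn src tgt T x₀ (src b) ∧ Conn src tgt T (tgt b) (l • x₀)

theorem mo_mem (hs : ∀ (g : G) a, src (g • a) = g • src a)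
    (ht : ∀ (g : G) a, tgt (g • a) = g • tgt a) (hΓ : ∀ (g : G) a, a ∈ Γ → g • a ∈ Γ) {x₀ : X}
    {S : Set X} (h0 : x₀ ∈ S) (h1 : ∀ x ∈ S, ∀ g : G, g • x ∈ S → g = 1)
    (h4 : ∀ a ∈ Γ, (src a ∈ S → ∃ k : G, k • tgt a ∈ S) ∧ (tgt a ∈ S → ∃ k : G, k • src a ∈ S))
    {γ : G} (hγ : Conn src tgt Γ x₀ (γ • x₀)) :
    γ ∈ Subgroup.closure {k : G | ∃ a ∈ Γ, src a ∈ S ∧ k⁻¹ • tgt a ∈ S} := by
  set K := {k : G | ∃ a ∈ Γ, src a ∈ S ∧ k⁻¹ • tgt a ∈ S}
  have st : ∀ a ∈ Γ, (∃ k ∈ Subgroup.closure K, k • src a ∈ S) ↔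
      ∃ k ∈ Subgroup.closure K, k • tgt a ∈ S := fun a ha => by
    constructor
    · rintro ⟨k, hk, e⟩
      rw [← hs] at e
      obtain ⟨l, hl⟩ := (h4 _ (hΓ k a ha)).1 e
      refine ⟨l * k, mul_mem (inv_mem_iff.1 (Subgroup.subset_closure
        ⟨_, hΓ k a ha, e, by rwa [inv_inv]⟩)) hk, ?_⟩
      rwa [mul_smul, ← ht]
    · rintro ⟨k, hk, e⟩
      rw [← ht] at e
      obtain ⟨l, hl⟩ := (h4 _ (hΓ k a ha)).2 e
      refine ⟨l * k, mul_mem (Subgroup.subset_closure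
        ⟨_, hΓ l _ (hΓ k a ha), by rwa [hs], by rwa [ht l, inv_smul_smul]⟩) hk, ?_⟩
      rwa [mul_smul, ← hs]
  obtain ⟨k, hk, e⟩ := (Conn.iff (P := fun x => ∃ k ∈ Subgroup.closure K, k • x ∈ S)
    st hγ).1 ⟨1, one_mem _, by rwa [one_smul]⟩
  rw [← mul_smul] at e
  rw [eq_inv_of_mul_eq_one_right (h1 _ h0 _ e)]
  exact inv_mem hk

theorem mo_two (hs : ∀ (g : G) a, src (g • a) = g • src a)
    (ht : ∀ (g : G) a, tgt (g • a) = g • tgt a) (hΓ : ∀ (g : G) a, a ∈ Γ → g • a ∈ Γ) {x₀ : X}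
    {S : Set X} (h1 : ∀ x ∈ S, ∀ g : G, g • x ∈ S → g = 1)
    (h3 : ∀ x ∈ S, Conn src tgt {a | a ∈ Γ ∧ src a ∈ S ∧ tgt a ∈ S} x₀ x) {a b : A} {k l : G}
    (ha : a ∈ Γ) (a1 : src a ∈ S) (a2 : k⁻¹ • tgt a ∈ S) (hb : b ∈ Γ) (b1 : src b ∈ S)
    (b2 : l⁻¹ • tgt b ∈ S) (hk : k ≠ 1) (hl : l ≠ 1) (hkl : k ≠ l) : Two G src tgt Γ x₀ := by
  have k1 : tgt a ∉ S := fun p => hk (inv_eq_one.1 (h1 _ p _ a2))
  have l1 : tgt b ∉ S := fun p => hl (inv_eq_one.1 (h1 _ p _ b2))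
  have out : ∀ c, src c ∈ S → ∀ e, src e ∈ S → ∀ γ : G, γ • c = e → c = e := fun c p e q γ r => by
    rw [← r, hs] at q
    rwa [h1 _ p _ q, one_smul] at r
  refine ⟨a, ha, b, hb, fun γ r => hkl ?_, k, l, fun T hT => ?_⟩
  · obtain rfl := out a a1 b b1 γ r
    have := h1 _ a2 (l⁻¹ * k) (by rwa [mul_smul, smul_inv_smul])
    exact (inv_mul_eq_one.1 this).symm
  · have sub : ∀ x ∈ S, Conn src tgt T x₀ x := fun x hx => (h3 x hx).mono fun e he =>
      hT ▸ ⟨he.1, fun γ r => k1 (out a a1 e he.2.1 γ r ▸ he.2.2),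
        fun γ r => l1 (out b b1 e he.2.1 γ r ▸ he.2.2)⟩
    have inv : ∀ (γ : G) e, e ∈ T → γ • e ∈ T := by
      subst hT
      exact fun γ e he => ⟨hΓ γ e he.1,
        fun δ r => he.2.1 (γ⁻¹ * δ) (by rw [mul_smul, r, inv_smul_smul]),
        fun δ r => he.2.2 (γ⁻¹ * δ) (by rw [mul_smul, r, inv_smul_smul])⟩
    have p := ((sub _ a2).smul hs ht inv k).symm
    have q := ((sub _ b2).smul hs ht inv l).symm
    rw [smul_inv_smul] at p q
    exact ⟨sub _ a1, p, sub _ b1, q⟩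

/-- One nontrivial loop fixes a generator; every larger graph has two loops or no new label. -/
theorem mo_key (hs : ∀ (g : G) a, src (g • a) = g • src a)
    (ht : ∀ (g : G) a, tgt (g • a) = g • tgt a) (fr : ∀ (g : G) (x : X), g • x = x → g = 1)
    {Γ₀ : Set A} (hΓ₀ : ∀ (g : G) a, a ∈ Γ₀ → g • a ∈ Γ₀) {x₀ : X} {g : G}
    (hg : Conn src tgt Γ₀ x₀ (g • x₀)) (g1 : g ≠ 1) :
    ∃ k : G, ∀ Γ : Set A, (∀ (g : G) a, a ∈ Γ → g • a ∈ Γ) → Γ₀ ⊆ Γ → ∀ h : G,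
      Conn src tgt Γ x₀ (h • x₀) → h ∈ Subgroup.zpowers k ∨ Two G src tgt Γ x₀ := by
  obtain ⟨S, h0, h1, -, h3, h4⟩ := exists_dom (Γ := Γ₀) (J := ∅) hs ht (fun _ _ h => h)
    (empty_subset _)
    (fun g p k => fr g p ((k.iff (P := fun y => y = p) fun _ h => h.elim).1 rfl)) x₀
  obtain ⟨k, ⟨a, ha, a1, a2⟩, k1⟩ :
      ∃ k ∈ {k : G | ∃ a ∈ Γ₀, src a ∈ S ∧ k⁻¹ • tgt a ∈ S}, k ≠ 1 := by
    by_contra hn
    exact g1 (Subgroup.mem_bot.1 ((Subgroup.closure_le ⊥).2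
      (fun k hk => by_contra fun q => hn ⟨k, hk, q⟩) (mo_mem hs ht hΓ₀ h0 h1 h4 hg)))
  refine ⟨k, fun Γ hΓ sub h hh => ?_⟩
  obtain ⟨S', p0, p1, p2, p3, p4⟩ := exists_dom (Γ := Γ)
    (J := {e | e ∈ Γ₀ ∧ ∃ γ : G, γ • src e ∈ S ∧ γ • tgt e ∈ S}) hs ht
    (fun γ e ⟨e1, δ, e2, e3⟩ => ⟨hΓ₀ γ e e1, δ * γ⁻¹, by rwa [hs, mul_smul, inv_smul_smul],
      by rwa [ht, mul_smul, inv_smul_smul]⟩) (fun e he => sub he.1)
    (fun γ p q => by
      by_cases c : ∃ δ : G, δ • p ∈ S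
      · obtain ⟨δ, hδ⟩ := c
        have := (q.iff (P := fun y => δ • y ∈ S) fun e he => he.2.elim fun ε ⟨e2, e3⟩ => ⟨fun r => by
          have := h1 _ e2 (δ * ε⁻¹) (by rwa [mul_smul, inv_smul_smul])
          rwa [mul_inv_eq_one.1 this], fun r => by
          have := h1 _ e3 (δ * ε⁻¹) (by rwa [mul_smul, inv_smul_smul])
          rwa [mul_inv_eq_one.1 this]⟩).1 hδ
        have e := h1 _ hδ (δ * γ * δ⁻¹) (by rwa [mul_smul, inv_smul_smul, mul_smul])
        calc γ = δ⁻¹ * (δ * γ * δ⁻¹) * δ := by group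
          _ = 1 := by rw [e]; group
      · refine fr γ p ((q.iff (P := fun y => y = p) fun e he => he.2.elim fun ε ⟨e2, e3⟩ =>
          iff_of_false (fun r => c ⟨ε, r ▸ e2⟩) fun r => c ⟨ε, r ▸ e3⟩).1 rfl)) x₀
  have SS : ∀ x ∈ S, x ∈ S' := fun x hx => p2 _ p0 _ ((h3 x hx).mono fun e he =>
    And.intro he.1 ⟨1, by rw [one_smul]; exact he.2.1, by rw [one_smul]; exact he.2.2⟩)
  refine or_iff_not_imp_right.2 fun hn => ?_
  refine (Subgroup.closure_le _).2 ?_ (mo_mem hs ht hΓ p0 p1 p4 hh)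
  rintro l ⟨b, hb, b1, b2⟩
  by_cases l1 : l = 1
  · rw [l1]
    exact one_mem _
  · by_cases e : k = l
    · rw [← e]
      exact Subgroup.mem_zpowers k
    · exact (hn (mo_two hs ht hΓ p1 p3 (sub ha) (SS _ a1) (SS _ a2) hb b1 b2 k1 l1 e)).elim

end Tree

section Word
variable {Ψ Λ : Type*} {M : Ψ → Λ → ℝ ≃o ℝ} {X A : Type*} {src tgt : A → X} {lev : X → ℝ}
  {lab : A → Λ} {ψ : Ψ}

/-- At a generic structure a graph that can be sheared does not contain two loops. -/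
theorem Generic.not_two [PseudoMetricSpace Ψ] (hψ : Generic M ψ) {G : Type*} [Group G]
    [MulAction G X] [MulAction G A] (hs : ∀ (g : G) a, src (g • a) = g • src a)
    (hl : ∀ (g : G) x, lev (g • x) = lev x) {Γ : Set A}
    (hM : ∀ a ∈ Γ, M ψ (lab a) (lev (src a)) = lev (tgt a))
    (shear : ∃ η > 0, ∀ ε > 0, ∃ δ > 0, ∀ h : A → ℝ ≃o ℝ, (∀ (g : G) a, h (g • a) = h a) →
      (∀ a, SuppIn (lev (src a) - η) (lev (src a) + η) (h a)) → (∀ a z, |h a z - z| ≤ δ) →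
      ∃ φ, dist φ ψ ≤ ε ∧ ∀ a ∈ Γ, ∀ s ∈ Ioo (lev (src a) - η) (lev (src a) + η),
        M φ (lab a) s = M ψ (lab a) (h a s))
    {x₀ : X} : ¬ Two G src tgt Γ x₀ := by
  classical
  rintro ⟨a, ha, b, hb, ab, k, l, hT⟩
  obtain ⟨η, hη, shear⟩ := shear
  obtain ⟨T, eT⟩ : ∃ T, T = {e | e ∈ Γ ∧ (∀ k : G, k • a ≠ e) ∧ ∀ k : G, k • b ≠ e} := ⟨_, rfl⟩
  obtain ⟨a1, a2, b1, b2⟩ := hT T eT
  have hT' : ∀ e ∈ T, M ψ (lab e) (lev (src e)) = lev (tgt e) ∧ ∀ᶠ s in 𝓝 (lev (src e)),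
      ∀ φ, (∀ e ∈ T, ∀ s ∈ Ioo (lev (src e) - η) (lev (src e) + η),
        M φ (lab e) s = M ψ (lab e) s) → M φ (lab e) s = M ψ (lab e) s := fun e he =>
    ⟨hM e (eT ▸ he).1, mem_of_superset
      (Ioo_mem_nhds (sub_lt_self _ hη) (lt_add_of_pos_right _ hη)) fun s p φ q => q e he s p⟩
  obtain ⟨v, u₁, v₁, θ₁, t1, f1, n1⟩ := loop_word hT' (hM a ha) a1 a2 (hl k x₀) hη
  obtain ⟨w, u₂, v₂, θ₂, t2, f2, n2⟩ := loop_word hT' (hM b hb) b1 b2 (hl l x₀) hη
  obtain ⟨p', q', ⟨x1, x2⟩, n⟩ := mem_nhds_iff_exists_Ioo_subset.1 (n1.and n2)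
  obtain ⟨p, p1, p2⟩ := exists_rat_btwn x1
  obtain ⟨q, q1, q2⟩ := exists_rat_btwn x2
  have n' := fun s (hs : s ∈ Icc (p : ℝ) q) => n ⟨p1.trans_le hs.1, hs.2.trans_lt q2⟩
  refine hψ v w p q (Metric.mem_closure_iff.2 fun ε hε => ?_) _ ⟨p2.le, q1.le⟩ f1 f2
  obtain ⟨δ, hδ, sh⟩ := shear (ε / 2) (half_pos hε)
  obtain ⟨g₁, g₂, s1, s2, d1, d2, gen⟩ := gen_two u₁.continuous.continuousOn
    v₁.continuous.continuousOn u₂.continuous.continuousOn v₂.continuous.continuousOn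
    (u₂.strictMono.strictMonoOn _) (v₂.strictMono.strictMonoOn _) (fun s hs => (n' s hs).1.1)
    (fun s hs => (n' s hs).2.1) hδ
  have orb : ∀ (c : A) (γ : G) e, (∃ k : G, k • c = γ • e) ↔ ∃ k : G, k • c = e := fun c γ e =>
    ⟨fun ⟨k, r⟩ => ⟨γ⁻¹ * k, by rw [mul_smul, r, inv_smul_smul]⟩,
      fun ⟨k, r⟩ => ⟨γ * k, by rw [mul_smul, r]⟩⟩
  obtain ⟨φ, d, hφ⟩ := sh (fun e => if ∃ k : G, k • a = e then g₁
      else if ∃ k : G, k • b = e then g₂ else OrderIso.refl ℝ)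
    (fun γ e => by simp only [orb])
    (fun e => by
      split_ifs with c d
      · obtain ⟨k, rfl⟩ := c
        rw [hs, hl]
        exact s1.mono (by linarith) (by linarith)
      · obtain ⟨k, rfl⟩ := d
        rw [hs, hl]
        exact s2.mono (by linarith) (by linarith)
      · exact fun _ _ => rfl)
    (fun e z => by
      split_ifs
      exacts [d1 z, d2 z, by simpa using hδ.le])
  have F : ∀ e ∈ T, ∀ s ∈ Ioo (lev (src e) - η) (lev (src e) + η),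
      M φ (lab e) s = M ψ (lab e) s := fun e he s hs => by
    rw [eT] at he
    rw [hφ e he.1 s hs, if_neg (not_exists.2 he.2.1), if_neg (not_exists.2 he.2.2)]
    rfl
  refine ⟨φ, fun s hs e1 e2 => gen s hs ((n' s hs).1.2 φ g₁ F s1 (fun r hr => ?_) e1)
    ((n' s hs).2.2 φ g₂ F s2 (fun r hr => ?_) e2), ?_⟩
  · rw [hφ a ha r hr, if_pos ⟨1, one_smul _ _⟩]
  · rw [hφ b hb r hr, if_neg (not_exists.2 ab), if_pos ⟨1, one_smul _ _⟩]
  · rw [dist_comm]
    linarith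

end Word

end Pool.Agent.Work.MP_3d425c_gt.Gn

namespace Pool.Agent.Work.MP_3d425c_gt.Co.Cx
open Relation

variable {G V A B C : Type*} [Group G] [MulAction G V] [MulAction G A] {X : Cx G V A B C}

theorem mo_exit {Z Y : Set B} {S : Set C} (hS : ∀ x ∈ S, ∀ y, X.Adj Z x y → y ∈ S) {c c' : C}
    (hc : c ∈ S) (h : c' ∈ X.Rch Y c) (hc' : c' ∉ S) :
    ∃ a b, X.pr a ∉ Y ∧ X.pr a ∈ Z ∧ X.cell (X.pr a) b ∈ S ∧ X.cell (X.pr a) (!b) ∉ S := by
  induction h with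
  | refl => exact absurd hc hc'
  | @tail x y _ k ih =>
    by_cases hx : x ∈ S
    · rcases k with k | k | ⟨a, b, h1, h2, h3⟩
      · exact absurd (hS x hx y (Or.inl k)) hc'
      · exact absurd (hS x hx y (Or.inr (Or.inl k))) hc'
      · by_cases hz : X.pr a ∈ Z
        · exact ⟨a, b, h1, hz, h2 ▸ hx, h3 ▸ hc'⟩
        · exact absurd (hS x hx y (Or.inr (Or.inr ⟨a, b, hz, h2, h3⟩))) hc'
    · exact ih hx

theorem mo_swap (hB : X.BD) {On : B → Prop} (hO : X.Her On) (p : V) (Y Z : Finset B)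
    (hY : X.U Y = ∅) (hYZ : Y ⊆ Z)
    (hZ : ∀ z ∈ Z, On z ∧ ∃ a, X.pr a = z ∧ X.P (fun _ => True) p (X.src a))
    (hU : (X.U Z).Nonempty) :
    ∃ Z' : Finset B, Y ⊆ Z' ∧
      (∀ z ∈ Z', On z ∧ ∃ a, X.pr a = z ∧ X.P (fun _ => True) p (X.src a)) ∧
      (∀ x y, X.P (fun a => X.pr a ∈ Z) x y → X.P (fun a => X.pr a ∈ Z') x y) ∧
      X.U Z' ⊂ X.U Z := by
  classical
  obtain ⟨c0, hc0⟩ := hU
  have i0 : (X.Rch Y c0).Infinite := fun q => by
    have : c0 ∈ X.U Y := ⟨hc0.1, q⟩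
    rw [hY] at this
    exact this
  obtain ⟨c1, k1, k2⟩ := i0.exists_notMem_finite (U_finite (X := X) Z)
  obtain ⟨e', b, e0, e1, e2, e3⟩ := mo_exit (Z := Z) (S := X.U Z)
    (fun x hx y hy => U_closed hx (ReflTransGen.single hy)) hc0 k1 k2
  obtain ⟨hon, e, he, hp⟩ := hZ _ e1
  rw [← he] at e0 e1 e2 e3 hon
  obtain ⟨F, f1, f2⟩ := P_fin (hB e b)
  have hF : ∀ z ∈ F, z ≠ X.pr e ∧ ∃ b', X.cell z b' ∈ X.U Z := by
    intro z hz
    obtain ⟨a, rfl, ⟨b', n1, n2⟩, -⟩ := f1 z hz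
    have hu : X.cell (X.pr a) b' ∈ X.U Z := U_closed e2 (Rch_symm (Rch_M n2))
    refine ⟨fun q => ?_, b', hu⟩
    rw [q] at n1 hu
    have : b' = !b := by
      cases b <;> cases b' <;> simp_all
    exact e3 (this ▸ hu)
  have hne : X.pr e ∉ ((Z.erase (X.pr e) ∪ F : Finset B) : Set B) := by
    intro h
    rcases Finset.mem_union.1 (Finset.mem_coe.1 h) with h | h
    · exact (Finset.mem_erase.1 h).1 rfl
    · exact (hF _ h).1 rfl
  have hout : ∀ x, x ∉ X.U Z → X.Rch Z x ⊆ X.Rch (Z.erase (X.pr e) ∪ F : Finset B) x := by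
    intro x hx y hy
    induction hy with
    | refl => exact ReflTransGen.refl
    | @tail u v huv k ih =>
      refine ReflTransGen.tail ih ?_
      rcases k with k | k | ⟨a, b1, h1, h2, h3⟩
      · exact Or.inl k
      · exact Or.inr (Or.inl k)
      · refine Or.inr (Or.inr ⟨a, b1, fun h => ?_, h2, h3⟩)
        rcases Finset.mem_union.1 (Finset.mem_coe.1 h) with h | h
        · exact h1 (Finset.mem_coe.2 (Finset.mem_erase.1 h).2)
        · obtain ⟨-, b', hb'⟩ := hF _ h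
          have hu : u ∉ X.U Z := fun q => hx (U_closed q (Rch_symm huv))
          have hv : v ∉ X.U Z := fun q => hx (U_closed q (Rch_symm
            (ReflTransGen.tail huv (Or.inr (Or.inr ⟨a, b1, h1, h2, h3⟩)))))
          by_cases q : b' = b1
          · exact hu (h2 ▸ q ▸ hb')
          · have : b' = !b1 := by cases b1 <;> cases b' <;> simp_all
            exact hv (h3 ▸ this ▸ hb')
  have hsub : X.U (Z.erase (X.pr e) ∪ F : Finset B) ⊆ X.U Z := by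
    intro x hx
    by_contra q
    exact q ⟨hx.1, hx.2.subset (hout x q)⟩
  refine ⟨Z.erase (X.pr e) ∪ F, fun z hz => Finset.mem_union_left _
    (Finset.mem_erase.2 ⟨fun q => e0 (q ▸ hz), hYZ hz⟩), fun z hz => ?_,
    fun x y h => P_lift (fun a ha => ?_) h, hsub, fun q => ?_⟩
  · rcases Finset.mem_union.1 hz with hz | hz
    · exact hZ z (Finset.mem_erase.1 hz).2
    · obtain ⟨a, q1, ⟨b', -, q2⟩, q3⟩ := f1 z hz
      exact ⟨q1 ▸ hO e a b b' hon q2, a, q1, P_trans hp q3⟩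
  · by_cases q : X.pr a = X.pr e
    · obtain ⟨g, rfl⟩ := X.pr_eq _ _ q.symm
      rw [X.src_smul, X.tgt_smul]
      exact P_smul (S := fun z => z ∈ Z.erase (X.pr e) ∪ F) g
        (P_mono (fun a ha => Finset.mem_union_right _ ha) f2)
    · exact P_arc (Finset.mem_union_left _ (Finset.mem_erase.2 ⟨q, ha⟩))
  · exact e3 (hsub (U_closed (q e2)
      (ReflTransGen.single (Or.inr (Or.inr ⟨e, b, hne, rfl, rfl⟩)))))

theorem mo_clear (hB : X.BD) {On : B → Prop} (hO : X.Her On) (p : V) (Y : Finset B)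
    (hY : X.U Y = ∅) (n : ℕ) : ∀ (Z : Finset B), Y ⊆ Z →
    (∀ z ∈ Z, On z ∧ ∃ a, X.pr a = z ∧ X.P (fun _ => True) p (X.src a)) → (X.U Z).ncard ≤ n →
    ∃ Z' : Finset B, Y ⊆ Z' ∧
      (∀ z ∈ Z', On z ∧ ∃ a, X.pr a = z ∧ X.P (fun _ => True) p (X.src a)) ∧
      (∀ x y, X.P (fun a => X.pr a ∈ Z) x y → X.P (fun a => X.pr a ∈ Z') x y) ∧
      X.U Z' = ∅ := by
  induction n with
  | zero =>
    intro Z h0 hZ hn
    exact ⟨Z, h0, hZ, fun _ _ h => h, (Set.ncard_eq_zero (U_finite Z)).1 (Nat.le_zero.1 hn)⟩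
  | succ n ih =>
    intro Z h0 hZ hn
    rcases (X.U Z).eq_empty_or_nonempty with h | h
    · exact ⟨Z, h0, hZ, fun _ _ h => h, h⟩
    · obtain ⟨Z1, a0, a1, a2, a3⟩ := mo_swap hB hO p Y Z hY h0 hZ h
      have := Set.ncard_lt_ncard a3 (U_finite Z)
      obtain ⟨Z2, b0, b1, b2, b3⟩ := ih Z1 a0 a1 (by omega)
      exact ⟨Z2, b0, b1, fun x y h => b2 _ _ (a2 _ _ h), b3⟩

/-- COLLAPSE in two stages -/
theorem mo_collapse (hB : X.BD) {On : B → Prop} (hO : X.Her On) {p q : V}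
    (h1 : X.P (fun a => On (X.pr a)) p q) :
    ∃ Y : Finset B, X.P (fun a => X.pr a ∈ Y) p q ∧ ∀ r, X.P (fun a => On (X.pr a)) p r →
      ∃ Z : Finset B, Y ⊆ Z ∧ (∀ z ∈ Z, On z ∧ ∃ a, X.pr a = z) ∧
        (∀ c, (X.Rch ∅ c).Infinite → (X.Rch Z c).Infinite) ∧ X.P (fun a => X.pr a ∈ Z) p r := by
  classical
  obtain ⟨F1, a1, a2⟩ := P_fin h1
  obtain ⟨Y, y1, y2, y3⟩ := clear hB hO p _ F1 (fun z hz => by
    obtain ⟨a, q1, q2, q3⟩ := a1 z hz
    exact ⟨q1 ▸ q2, a, q1, q3⟩) le_rfl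
  refine ⟨Y, y2 _ _ a2, fun r h2 => ?_⟩
  obtain ⟨F2, b1, b2⟩ := P_fin h2
  obtain ⟨Z, z0, z1, z2, z3⟩ := mo_clear hB hO p Y y3 _ (Y ∪ F2) Finset.subset_union_left
    (fun z hz => by
      rcases Finset.mem_union.1 hz with hz | hz
      · exact y1 z hz
      · obtain ⟨a, q1, q2, q3⟩ := b1 z hz
        exact ⟨q1 ▸ q2, a, q1, q3⟩) le_rfl
  refine ⟨Z, z0, fun z hz => ?_, fun c hc k => ?_,
    z2 _ _ (P_mono (fun a ha => Finset.mem_union_right _ ha) b2)⟩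
  · obtain ⟨u, a, v, -⟩ := z1 z hz
    exact ⟨u, a, v⟩
  · have : c ∈ X.U Z := ⟨hc, k⟩
    rw [z3] at this
    exact this

end Pool.Agent.Work.MP_3d425c_gt.Co.Cx
end

-- merged part: Pool.Agent.Work.MP_3d425c_gt.Md.Col
section
/-! Collapse in the model. -/

namespace Pool.Agent.Work.MP_3d425c_gt.Md
open Set Relation Pool.Agent.Work.MP_3d425c_gt.Gn Pool.Agent.Work.MP_3d425c_gt.Cy

variable {G X0 X1 X2 X3 : Type} [Group G] [MulAction G X0] [MulAction G X1] [MulAction G X2]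
  [MulAction G X3] {T : Tri G X0 X1 X2 X3} {φ : X2 → ℝ ≃o ℝ}

theorem col_ob_smul {X : Type} [MulAction G X] (g : G) (x : X) : ob G (g • x) = ob G x :=
  Quotient.sound (MulAction.orbitRel_apply.2 (MulAction.mem_orbit x g))

theorem col_ob_eq {X : Type} [MulAction G X] {x y : X} (h : ob G x = ob G y) :
    ∃ g : G, y = g • x := by
  obtain ⟨g, hg⟩ := MulAction.mem_orbit_iff.1 (MulAction.orbitRel_apply.1 (Quotient.exact h.symm))
  exact ⟨g, hg.symm⟩

theorem col_free1 (T : Tri G X0 X1 X2 X3) (g : G) (e : X1) (h : g • e = e) : g = 1 :=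
  T.free g (T.d1 e 0) (by rw [← T.e1, h])

theorem col_free2 (T : Tri G X0 X1 X2 X3) (g : G) (f : X2) (h : g • f = f) : g = 1 :=
  col_free1 T g (T.d2 f 0) (by rw [← T.e2, h])

theorem col_freeN (T : Tri G X0 X1 X2 X3) (g : G) (p : Nd X0 X1) (h : g • p = p) : g = 1 := by
  cases p with
  | pt e r => exact col_free1 T g e (Nd.pt.inj ((smul_pt g e r).symm.trans h)).1
  | vx v => exact T.free g v (Nd.vx.inj ((smul_vx g v).symm.trans h))

theorem col_one (hf : T.Flat φ) (f : X2) : φ f 1 = 1 := hf.supp f 1 (by simp)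

theorem col_mem (hf : T.Flat φ) (f : X2) {t : ℝ} (ht : t ∈ Ioo (0 : ℝ) 1) :
    φ f t ∈ Ioo (0 : ℝ) 1 := by
  have h0 : φ f 0 = 0 := hf.supp f 0 (by simp)
  exact ⟨h0 ▸ (φ f).strictMono ht.1, col_one hf f ▸ (φ f).strictMono ht.2⟩

theorem col_mem' (hf : T.Flat φ) (f : X2) {t : ℝ} (ht : t ∈ Ioo (0 : ℝ) 1) :
    (φ f).symm t ∈ Ioo (0 : ℝ) 1 := by
  have h0 : φ f 0 = 0 := hf.supp f 0 (by simp)
  exact ⟨(φ f).lt_symm_apply.2 (h0.symm ▸ ht.1),
    (φ f).symm_apply_lt.2 ((col_one hf f).symm ▸ ht.2)⟩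

theorem col_pos0 (x : X3) (t : ℝ) : T.pos φ x 0 t = (φ (T.d3 x 2)).symm ((t + 1) / 2) := rfl
theorem col_pos1 (x : X3) (t : ℝ) : T.pos φ x 1 t = t := rfl
theorem col_pos2 (x : X3) (t : ℝ) : T.pos φ x 2 t = t := rfl
theorem col_pos3 (x : X3) (t : ℝ) : T.pos φ x 3 t = (φ (T.d3 x 1)).symm (t / 2) := rfl

theorem col_fin4 (k : Fin 4) : k = 0 ∨ k = 1 ∨ k = 2 ∨ k = 3 := by
  fin_cases k <;> simp

theorem col_pos_mem (hf : T.Flat φ) (x : X3) (k : Fin 4) {t : ℝ} (ht : t ∈ Ioo (0 : ℝ) 1) :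
    T.pos φ x k t ∈ Ioo (0 : ℝ) 1 := by
  rcases col_fin4 k with rfl | rfl | rfl | rfl
  · exact col_mem' hf _ ⟨by linarith [ht.1], by linarith [ht.2]⟩
  · exact ht
  · exact ht
  · exact col_mem' hf _ ⟨by linarith [ht.1], by linarith [ht.2]⟩

theorem col_pos_smul (hf : T.Fol φ) (g : G) (x : X3) (k : Fin 4) (t : ℝ) :
    T.pos φ (g • x) k t = T.pos φ x k t := by
  rcases col_fin4 k with rfl | rfl | rfl | rfl
  · rw [col_pos0, col_pos0, T.e3, hf.2]
  · rfl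
  · rfl
  · rw [col_pos3, col_pos3, T.e3, hf.2]

theorem col_tgt_smul (hf : T.Fol φ) (g : G) (a : Ar X2) :
    T.tgt φ (g • a) = g • T.tgt φ a := by
  simp only [Tri.tgt, smul_f, smul_t, hf.2, T.e2, T.e1]
  split_ifs <;> rfl

theorem col_lt {a : Ar X2} (h : 2 * φ a.f a.t < 1) :
    T.tgt φ a = .pt (T.d2 a.f 2) (2 * φ a.f a.t) := if_pos h

theorem col_eq {a : Ar X2} (h : 2 * φ a.f a.t = 1) :
    T.tgt φ a = .vx (T.d1 (T.d2 a.f 2) 0) := by
  rw [Tri.tgt, if_neg (by rw [h]; exact lt_irrefl _), if_pos h]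

theorem col_gt {a : Ar X2} (h : 1 < 2 * φ a.f a.t) :
    T.tgt φ a = .pt (T.d2 a.f 0) (2 * φ a.f a.t - 1) := by
  rw [Tri.tgt, if_neg (not_lt.2 h.le), if_neg h.ne']

/-- the two boundary paths of a plaque have a common end -/
theorem col_end (hf : T.Flat φ) (y : X3) {s : ℝ} (hs : s ∈ Ioo (0 : ℝ) 1) : ∃ E : Nd X0 X1,
    ((2 * φ (T.d3 y 2) s ≤ 1 ∧ E = T.tgt φ ⟨T.d3 y 2, s, hs⟩) ∨
      ∃ h, E = T.tgt φ ⟨T.d3 y 0, 2 * φ (T.d3 y 2) s - 1, h⟩) ∧
    ((1 ≤ 2 * φ (T.d3 y 1) s ∧ E = T.tgt φ ⟨T.d3 y 1, s, hs⟩) ∨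
      ∃ h, E = T.tgt φ ⟨T.d3 y 3, 2 * φ (T.d3 y 1) s, h⟩) := by
  have fl := hf.flat y s (Ioo_subset_Icc_self hs)
  have m2 := col_mem hf (T.d3 y 2) hs
  have m1 := col_mem hf (T.d3 y 1) hs
  have q22 : T.d2 (T.d3 y 3) 2 = T.d2 (T.d3 y 2) 2 := T.s3 y 2 2 le_rfl
  have q02 : T.d2 (T.d3 y 3) 0 = T.d2 (T.d3 y 0) 2 := T.s3 y 0 2 (by decide)
  have q12 : T.d2 (T.d3 y 3) 1 = T.d2 (T.d3 y 1) 2 := T.s3 y 1 2 (by decide)
  have q00 : T.d2 (T.d3 y 1) 0 = T.d2 (T.d3 y 0) 0 := T.s3 y 0 0 le_rfl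
  have r00 : T.d1 (T.d2 (T.d3 y 3) 1) 0 = T.d1 (T.d2 (T.d3 y 3) 0) 0 := T.s2 _ 0 0 le_rfl
  by_cases hb : 2 * φ (T.d3 y 2) s ≤ 1
  · rw [if_pos hb] at fl
    rcases lt_trichotomy (2 * φ (T.d3 y 1) s) 1 with hc | hc | hc
    · rw [if_pos hc.le] at fl
      have h3 : 2 * φ (T.d3 y 1) s ∈ Ioo (0 : ℝ) 1 := ⟨by linarith [m1.1], hc⟩
      refine ⟨_, Or.inl ⟨hb, rfl⟩, Or.inr ⟨h3, ?_⟩⟩
      rcases hb.lt_or_eq with hb | hb
      · rw [col_lt (a := ⟨_, s, hs⟩) hb, col_lt (a := ⟨_, _, h3⟩) (fl ▸ hb)]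
        simp only [q22, ← fl]
      · rw [col_eq (a := ⟨_, s, hs⟩) hb, col_eq (a := ⟨_, _, h3⟩) (fl ▸ hb)]
        simp only [q22]
    · rw [if_pos hc.le, hc, col_one hf] at fl
      linarith
    · rw [if_neg (not_le.2 hc)] at fl
      linarith
  · rw [if_neg hb] at fl
    have h0 : 2 * φ (T.d3 y 2) s - 1 ∈ Ioo (0 : ℝ) 1 :=
      ⟨by linarith [not_le.1 hb], by linarith [m2.2]⟩
    have m0 := col_mem hf (T.d3 y 0) h0
    refine ⟨_, Or.inr ⟨h0, rfl⟩, ?_⟩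
    rcases lt_trichotomy (2 * φ (T.d3 y 1) s) 1 with hc | hc | hc
    · rw [if_pos hc.le] at fl
      have h3 : 2 * φ (T.d3 y 1) s ∈ Ioo (0 : ℝ) 1 := ⟨by linarith [m1.1], hc⟩
      have m3 := col_mem hf (T.d3 y 3) h3
      refine Or.inr ⟨h3, ?_⟩
      rw [col_lt (a := ⟨_, _, h0⟩) (by dsimp only; linarith [m3.2]),
        col_gt (a := ⟨_, _, h3⟩) (by dsimp only; linarith [m0.1])]
      simp only [q02, ← fl, add_sub_cancel_left]
    · rw [if_pos hc.le, hc, col_one hf] at fl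
      refine Or.inl ⟨hc.ge, ?_⟩
      rw [col_eq (a := ⟨_, _, h0⟩) (by dsimp only; linarith), col_eq (a := ⟨_, s, hs⟩) hc]
      simp only [← q02, ← q12, r00]
    · rw [if_neg (not_le.2 hc)] at fl
      refine Or.inl ⟨hc.le, ?_⟩
      have e : 2 * φ (T.d3 y 0) (2 * φ (T.d3 y 2) s - 1) = 2 * φ (T.d3 y 1) s := by linarith
      rw [col_gt (a := ⟨_, _, h0⟩) (by dsimp only; linarith), col_gt (a := ⟨_, s, hs⟩) hc]
      simp only [q00, e]

/-- the two sides of a face downstairs -/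
noncomputable def col_sd (T : Tri G X0 X1 X2 X3) (w : Ob G X2) (b : Bool) : X3 × Fin 4 :=
  cond b (T.two w.out).choose_spec.choose (T.two w.out).choose

theorem col_sd_ne (w : Ob G X2) (b : Bool) : col_sd T w b ≠ col_sd T w (!b) := by
  have := (T.two w.out).choose_spec.choose_spec.1
  cases b
  · exact this
  · exact this.symm

theorem col_sd_iff (w : Ob G X2) (r : X3 × Fin 4) :
    T.d3 r.1 r.2 = w.out ↔ ∃ b, r = col_sd T w b := by
  rw [(T.two w.out).choose_spec.choose_spec.2 r]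
  exact ⟨fun h => h.elim (fun h => ⟨false, h⟩) fun h => ⟨true, h⟩,
    fun ⟨b, h⟩ => by cases b; exacts [Or.inl h, Or.inr h]⟩

/-- the side `k` of `y` is the side `b` of its face downstairs -/
def col_inc (T : Tri G X0 X1 X2 X3) (y : X3) (k : Fin 4) (b : Bool) : Prop :=
  ∃ g : G, (g • y, k) = col_sd T (ob G (T.d3 y k)) b

theorem col_out (f : X2) : ∃ g : G, (ob G f).out = g • f :=
  col_ob_eq (Quotient.out_eq (ob G f)).symm

theorem col_inc_ex (y : X3) (k : Fin 4) : ∃ b, col_inc T y k b := by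
  obtain ⟨g, hg⟩ := col_out (G := G) (T.d3 y k)
  obtain ⟨b, hb⟩ := (col_sd_iff (T := T) (ob G (T.d3 y k)) (g • y, k)).1 (by rw [hg, T.e3])
  exact ⟨b, g, hb⟩

theorem col_inc_of (f : X2) (b : Bool) : ∃ y k, T.d3 y k = f ∧ col_inc T y k b := by
  obtain ⟨g, hg⟩ := col_out (G := G) f
  have h := (col_sd_iff (T := T) (ob G f) _).2 ⟨b, rfl⟩
  have e : T.d3 (g⁻¹ • (col_sd T (ob G f) b).1) (col_sd T (ob G f) b).2 = f := by
    rw [T.e3, h, hg, inv_smul_smul]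
  exact ⟨_, _, e, g, by rw [e, smul_inv_smul]⟩

theorem col_inc_inj {y y' : X3} {k k' : Fin 4} {b : Bool} (h : col_inc T y k b)
    (h' : col_inc T y' k' b) (e : ob G (T.d3 y k) = ob G (T.d3 y' k')) :
    k = k' ∧ ∃ g : G, y' = g • y := by
  obtain ⟨g, hg⟩ := h
  obtain ⟨g', hg'⟩ := h'
  have := Prod.ext_iff.1 (hg.trans (e ▸ hg'.symm))
  exact ⟨this.2, g'⁻¹ * g, by rw [mul_smul, eq_inv_smul_iff]; exact this.1.symm⟩

/-- the complex of arcs and plaques -/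
noncomputable def col_cx (hf : T.Fol φ) :
    Co.Cx G (Nd X0 X1) (Ar X2) (Ob G X2 × ℝ) (Ob G X3 × ℝ) where
  src := T.src
  tgt := T.tgt φ
  pr a := (ob G a.f, a.t)
  cell z b := (ob G (col_sd T z.1 b).1, T.pos φ (col_sd T z.1 b).1 (col_sd T z.1 b).2 z.2)
  Q _ _ := False
  M _ _ := False
  src_smul g a := by simp only [Tri.src, smul_f, smul_t, T.e2, smul_pt]
  tgt_smul := col_tgt_smul hf
  pr_smul g a := by simp only [smul_f, smul_t, col_ob_smul]
  pr_eq a a' h := by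
    obtain ⟨g, hg⟩ := col_ob_eq (Prod.ext_iff.1 h).1
    exact ⟨g, Ar.ext hg (Prod.ext_iff.1 h).2.symm⟩
  Q_smul _ _ _ h := h

theorem col_cell (hf : T.Fol φ) {y : X3} {k : Fin 4} {b : Bool} (h : col_inc T y k b) (t : ℝ) :
    (col_cx hf).cell (ob G (T.d3 y k), t) b = (ob G y, T.pos φ y k t) := by
  obtain ⟨g, hg⟩ := h
  show (ob G (col_sd T _ b).1, T.pos φ (col_sd T _ b).1 (col_sd T _ b).2 t) = _
  rw [← hg, col_ob_smul, col_pos_smul hf]

/-- going round a plaque -/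
theorem col_round (hf : T.Fol φ) (y : X3) {s : ℝ} (hs : s ∈ Ioo (0 : ℝ) 1) (K : Fin 4 → Prop)
    {ok : Ar X2 → Prop} (hk : ∀ k a, K k → a.f = T.d3 y k → T.pos φ y k a.t = s → ok a) :
    ∃ E : Nd X0 X1,
      (K 2 → (col_cx hf).P ok (.pt (T.d2 (T.d3 y 2) 1) s) (T.tgt φ ⟨T.d3 y 2, s, hs⟩)) ∧
      (K 1 → (col_cx hf).P ok (.pt (T.d2 (T.d3 y 2) 1) s) (T.tgt φ ⟨T.d3 y 1, s, hs⟩)) ∧
      (K 0 → (col_cx hf).P ok (T.tgt φ ⟨T.d3 y 2, s, hs⟩) E) ∧
      (K 3 → (col_cx hf).P ok (T.tgt φ ⟨T.d3 y 1, s, hs⟩) E) ∧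
      ∀ k (a : Ar X2), a.f = T.d3 y k → T.pos φ y k a.t = s →
        (k = 2 ∧ T.src a = .pt (T.d2 (T.d3 y 2) 1) s ∧ T.tgt φ a = T.tgt φ ⟨T.d3 y 2, s, hs⟩) ∨
        (k = 1 ∧ T.src a = .pt (T.d2 (T.d3 y 2) 1) s ∧ T.tgt φ a = T.tgt φ ⟨T.d3 y 1, s, hs⟩) ∨
        (k = 0 ∧ T.src a = T.tgt φ ⟨T.d3 y 2, s, hs⟩ ∧ T.tgt φ a = E) ∨
        (k = 3 ∧ T.src a = T.tgt φ ⟨T.d3 y 1, s, hs⟩ ∧ T.tgt φ a = E) := by
  obtain ⟨E, h1, h2⟩ := col_end hf.1 y hs
  have q11 : T.d2 (T.d3 y 2) 1 = T.d2 (T.d3 y 1) 1 := T.s3 y 1 1 le_rfl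
  have q01 : T.d2 (T.d3 y 2) 0 = T.d2 (T.d3 y 0) 1 := T.s3 y 0 1 (by decide)
  have q12 : T.d2 (T.d3 y 3) 1 = T.d2 (T.d3 y 1) 2 := T.s3 y 1 2 (by decide)
  have s0 : ∀ h, T.src ⟨T.d3 y 0, 2 * φ (T.d3 y 2) s - 1, h⟩ = T.tgt φ ⟨T.d3 y 2, s, hs⟩ :=
    fun h => by
      rw [col_gt (a := ⟨_, s, hs⟩) (by dsimp only; linarith [h.1])]
      simp only [Tri.src, q01]
  have s3 : ∀ h, T.src ⟨T.d3 y 3, 2 * φ (T.d3 y 1) s, h⟩ = T.tgt φ ⟨T.d3 y 1, s, hs⟩ :=
    fun h => by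
      rw [col_lt (a := ⟨_, s, hs⟩) h.2]
      simp only [Tri.src, q12]
  refine ⟨E, fun k => Co.Cx.P_arc (X := col_cx hf) (a := ⟨_, s, hs⟩) (hk 2 _ k rfl rfl),
    fun k => q11 ▸ Co.Cx.P_arc (X := col_cx hf) (a := ⟨_, s, hs⟩) (hk 1 _ k rfl rfl),
    fun k => ?_, fun k => ?_, fun k a ha hp => ?_⟩
  · rcases h1 with ⟨-, rfl⟩ | ⟨h, rfl⟩
    · exact Co.Cx.P_refl _ _
    · rw [← s0 h]
      refine Co.Cx.P_arc (X := col_cx hf) (hk 0 _ k rfl ?_)
      rw [col_pos0, OrderIso.symm_apply_eq]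
      ring
  · rcases h2 with ⟨-, rfl⟩ | ⟨h, rfl⟩
    · exact Co.Cx.P_refl _ _
    · rw [← s3 h]
      refine Co.Cx.P_arc (X := col_cx hf) (hk 3 _ k rfl ?_)
      rw [col_pos3, OrderIso.symm_apply_eq]
      ring
  · obtain ⟨f, t, ht⟩ := a
    dsimp only at ha hp
    subst ha
    rcases col_fin4 k with rfl | rfl | rfl | rfl
    · rw [col_pos0, OrderIso.symm_apply_eq] at hp
      have e : t = 2 * φ (T.d3 y 2) s - 1 := by linarith
      subst e
      rcases h1 with ⟨h, -⟩ | ⟨h, rfl⟩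
      · exact absurd ht.1 (by linarith)
      · exact Or.inr (Or.inr (Or.inl ⟨rfl, s0 ht, rfl⟩))
    · rw [col_pos1] at hp
      subst hp
      exact Or.inr (Or.inl ⟨rfl, by simp only [Tri.src, q11], rfl⟩)
    · rw [col_pos2] at hp
      subst hp
      exact Or.inl ⟨rfl, rfl, rfl⟩
    · rw [col_pos3, OrderIso.symm_apply_eq] at hp
      have e : t = 2 * φ (T.d3 y 1) s := by linarith
      subst e
      rcases h2 with ⟨h, -⟩ | ⟨h, rfl⟩
      · exact absurd ht.2 (by linarith)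
      · exact Or.inr (Or.inr (Or.inr ⟨rfl, s3 ht, rfl⟩))

theorem col_bd (hf : T.Fol φ) : (col_cx hf).BD := by
  intro e b
  obtain ⟨y, k0, hy, hb⟩ := col_inc_of (T := T) e.f b
  have hs := col_pos_mem hf.1 y k0 e.ht
  obtain ⟨E, p2, p1, p0, p3, hE⟩ := col_round hf y hs (fun k => k ≠ k0)
    (ok := fun a => ∃ b', ((col_cx hf).pr a, b') ≠ ((col_cx hf).pr e, b) ∧
      EqvGen (col_cx hf).M ((col_cx hf).cell ((col_cx hf).pr a) b')
        ((col_cx hf).cell ((col_cx hf).pr e) b)) (fun k a hk ha hp => by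
    obtain ⟨b', hb'⟩ := col_inc_ex (T := T) y k
    refine ⟨b', fun q => hk ?_, ?_⟩
    · obtain ⟨q1, q2⟩ := Prod.ext_iff.1 q
      have q3 : ob G a.f = ob G e.f := (Prod.ext_iff.1 q1).1
      have q4 : b' = b := q2
      subst q4
      exact (col_inc_inj hb' hb (by rw [← ha, hy, q3])).1
    · show EqvGen _ ((col_cx hf).cell (ob G a.f, a.t) b') ((col_cx hf).cell (ob G e.f, e.t) b)
      rw [ha, ← hy, col_cell hf hb', col_cell hf hb, hp]
      exact EqvGen.refl _)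
  show (col_cx hf).P _ (T.src e) (T.tgt φ e)
  rcases hE k0 e hy.symm rfl with ⟨rfl, a, c⟩ | ⟨rfl, a, c⟩ | ⟨rfl, a, c⟩ | ⟨rfl, a, c⟩ <;>
    rw [a, c]
  · exact Co.Cx.P_trans (Co.Cx.P_trans (p1 (by decide)) (p3 (by decide)))
      (Co.Cx.P_symm (p0 (by decide)))
  · exact Co.Cx.P_trans (Co.Cx.P_trans (p2 (by decide)) (p0 (by decide)))
      (Co.Cx.P_symm (p3 (by decide)))
  · exact Co.Cx.P_trans (Co.Cx.P_trans (Co.Cx.P_symm (p2 (by decide))) (p1 (by decide)))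
      (p3 (by decide))
  · exact Co.Cx.P_trans (Co.Cx.P_trans (Co.Cx.P_symm (p1 (by decide))) (p2 (by decide)))
      (p0 (by decide))

theorem col_down (hf : T.Fol φ) {Z : Set (Ob G X2 × ℝ)} {p q : X3 × ℝ}
    (h : EqvGen (T.StepZ φ Z) p q) : (ob G q.1, q.2) ∈ (col_cx hf).Rch Z (ob G p.1, p.2) := by
  induction h with
  | rel p q h =>
    obtain ⟨k, l, t, ht, hz, e, e1, e2⟩ := h
    obtain ⟨b, hb⟩ := col_inc_ex (T := T) p.1 k
    obtain ⟨b', hb'⟩ := col_inc_ex (T := T) q.1 l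
    by_cases hbb : b' = b
    · subst hbb
      have c := (col_cell hf hb t).symm.trans (e ▸ col_cell hf hb' t)
      rw [e1, e2, c]
      exact ReflTransGen.refl
    · have : b' = !b := by cases b <;> cases b' <;> simp_all
      subst this
      refine ReflTransGen.single (Or.inr (Or.inr ⟨⟨T.d3 p.1 k, t, ht⟩, b, hz, ?_, ?_⟩))
      · exact (col_cell hf hb t).trans (by rw [e1])
      · exact (e ▸ col_cell hf hb' t).trans (by rw [e2])
  | refl p => exact ReflTransGen.refl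
  | symm p q _ ih => exact Co.Cx.Rch_symm ih
  | trans p q r _ _ i j => exact ReflTransGen.trans i j

theorem col_up (hf : T.Fol φ) {Z : Set (Ob G X2 × ℝ)} {p : X3 × ℝ} {c : Ob G X3 × ℝ}
    (h : c ∈ (col_cx hf).Rch Z (ob G p.1, p.2)) :
    ∃ y, ob G y = c.1 ∧ EqvGen (T.StepZ φ Z) p (y, c.2) := by
  induction h with
  | refl => exact ⟨p.1, rfl, EqvGen.refl _⟩
  | @tail u v _ k ih =>
    obtain ⟨y, hy, hp⟩ := ih
    rcases k with k | k | ⟨a, b, hz, h1, h2⟩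
    · exact k.elim
    · exact k.elim
    · obtain ⟨y1, k1, e1, i1⟩ := col_inc_of (T := T) a.f b
      obtain ⟨y2, k2, e2, i2⟩ := col_inc_of (T := T) a.f (!b)
      have c1 : (ob G y1, T.pos φ y1 k1 a.t) = u := (col_cell hf i1 a.t).symm.trans (e1 ▸ h1)
      have c2 : (ob G y2, T.pos φ y2 k2 a.t) = v := (col_cell hf i2 a.t).symm.trans (e2 ▸ h2)
      subst c1 c2
      obtain ⟨g, rfl⟩ := col_ob_eq hy.symm
      refine ⟨g • y2, col_ob_smul g y2, EqvGen.trans _ _ _ hp (EqvGen.rel _ _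
        ⟨k1, k2, a.t, a.ht, ?_, ?_, (col_pos_smul hf g _ _ _).symm,
          (col_pos_smul hf g _ _ _).symm⟩)⟩
      · show (ob G (T.d3 (g • y1) k1), a.t) ∉ Z
        rw [T.e3, col_ob_smul, e1]
        exact hz
      · show T.d3 (g • y1) k1 = T.d3 (g • y2) k2
        rw [T.e3, T.e3, e1, e2]

theorem col_infZ (hf : T.Fol φ) (Z : Set (Ob G X2 × ℝ)) (p : X3 × ℝ) :
    T.InfZ φ Z p ↔ ((col_cx hf).Rch Z (ob G p.1, p.2)).Infinite := by
  have : {q : Ob G X3 × ℝ | ∃ y, ob G y = q.1 ∧ EqvGen (T.StepZ φ Z) p (y, q.2)} =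
      (col_cx hf).Rch Z (ob G p.1, p.2) := by
    refine Set.ext fun c => ⟨?_, col_up hf⟩
    rintro ⟨y, hy, h⟩
    have := col_down hf h
    rwa [hy] at this
  rw [Tri.InfZ, this]

theorem col_lf {p q : X3 × ℝ} : T.Lf φ p q ↔ EqvGen (T.StepZ φ ∅) p q := by
  have : T.Step φ = T.StepZ φ ∅ := by
    funext p q
    simp only [Tri.Step, Tri.StepZ, mem_empty_iff_false, not_false_eq_true, true_and]
  rw [Tri.Lf, this]

theorem col_lev (hf : T.Fol φ) {p q : X3 × ℝ} (h : T.Lf φ p q) :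
    p.2 ∈ Ioo (0 : ℝ) 1 ↔ q.2 ∈ Ioo (0 : ℝ) 1 := by
  induction h with
  | rel p q h =>
    obtain ⟨k, l, t, ht, -, e1, e2⟩ := h
    exact iff_of_true (e1 ▸ col_pos_mem hf.1 _ _ ht) (e2 ▸ col_pos_mem hf.1 _ _ ht)
  | refl p => exact Iff.rfl
  | symm p q _ ih => exact ih.symm
  | trans p q r _ _ i j => exact i.trans j

/-- a path of plaques gives a path of arcs -/
theorem col_primal (hf : T.Fol φ) (u : Ob G X3 × ℝ) {p q : X3 × ℝ} (h : T.Lf φ p q) :
    (ob G p.1, p.2) ∈ (col_cx hf).Rch ∅ u →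
    (col_cx hf).P (fun a => (col_cx hf).cell ((col_cx hf).pr a) false ∈ (col_cx hf).Rch ∅ u)
      (.pt (T.d2 (T.d3 p.1 2) 1) p.2) (.pt (T.d2 (T.d3 q.1 2) 1) q.2) := by
  have key : ∀ (y : X3) (k : Fin 4) (e : Ar X2), e.f = T.d3 y k →
      (ob G y, T.pos φ y k e.t) ∈ (col_cx hf).Rch ∅ u →
      (col_cx hf).P (fun a => (col_cx hf).cell ((col_cx hf).pr a) false ∈ (col_cx hf).Rch ∅ u)
        (.pt (T.d2 (T.d3 y 2) 1) (T.pos φ y k e.t)) (T.src e) := by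
    intro y k e he hu
    obtain ⟨E, p2, p1, -, -, hE⟩ := col_round hf y (col_pos_mem hf.1 y k e.ht) (fun _ => True)
      (ok := fun a => (col_cx hf).cell ((col_cx hf).pr a) false ∈ (col_cx hf).Rch ∅ u)
      (fun k' a _ ha hp => by
        obtain ⟨b, hb⟩ := col_inc_ex (T := T) y k'
        have c : (col_cx hf).cell ((col_cx hf).pr a) b ∈ (col_cx hf).Rch ∅ u := by
          show (col_cx hf).cell (ob G a.f, a.t) b ∈ _
          rwa [ha, col_cell hf hb, hp]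
        cases b
        · exact c
        · exact ReflTransGen.tail c (Or.inr (Or.inr ⟨a, true, fun h => h, rfl, rfl⟩)))
    rcases hE k e he rfl with ⟨-, a, -⟩ | ⟨-, a, -⟩ | ⟨-, a, -⟩ | ⟨-, a, -⟩ <;> rw [a]
    · exact Co.Cx.P_refl _ _
    · exact Co.Cx.P_refl _ _
    · exact p2 trivial
    · exact p1 trivial
  induction h with
  | rel p q h =>
    intro hu
    have hq : (ob G q.1, q.2) ∈ (col_cx hf).Rch ∅ u :=
      ReflTransGen.trans hu (col_down hf (col_lf.1 (EqvGen.rel _ _ h)))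
    obtain ⟨k, l, t, ht, e, e1, e2⟩ := h
    rw [e1] at hu
    rw [e2] at hq
    rw [e1, e2]
    exact Co.Cx.P_trans (key p.1 k ⟨_, t, ht⟩ rfl hu) (Co.Cx.P_symm (key q.1 l ⟨_, t, ht⟩ e hq))
  | refl p => exact fun _ => Co.Cx.P_refl _ _
  | symm p q h ih =>
    exact fun hu => Co.Cx.P_symm (ih (ReflTransGen.trans hu
      (Co.Cx.Rch_symm (col_down hf (col_lf.1 h)))))
  | trans p q r h _ i j =>
    exact fun hu => Co.Cx.P_trans (i hu) (j (ReflTransGen.trans hu (col_down hf (col_lf.1 h))))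

theorem col_conn (hf : T.Fol φ) {S : Set (Ar X2)} {x y : Nd X0 X1}
    (h : (col_cx hf).P (fun a => a ∈ S) x y) : Conn T.src (T.tgt φ) S x y := by
  induction h with
  | rel x y h =>
    rcases h with h | h
    · exact h.elim
    · exact EqvGen.rel _ _ h
  | refl x => exact EqvGen.refl _
  | symm x y _ ih => exact EqvGen.symm _ _ ih
  | trans x y z _ _ i j => exact EqvGen.trans _ _ _ i j

theorem Tri.collapse (hf : T.Fol φ) (hi : T.Inf φ) {x : X3} {s : ℝ} (hs : s ∈ Ioo (0 : ℝ) 1)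
    {g h : G} (hg : T.Lf φ (x, s) (g • x, s)) (hh : T.Lf φ (x, s) (h • x, s))
    (hne : g * h ≠ h * g) :
    ∃ Z, T.Clear φ (x, s) Z ∧ ∃ (p : Nd X0 X1) (a b : G), a * b ≠ b * a ∧
      Conn T.src (T.tgt φ) (ovr G Z) p (a • p) ∧ Conn T.src (T.tgt φ) (ovr G Z) p (b • p) := by
  obtain ⟨l, hl⟩ := Co.Cx.exists_lab (col_freeN T)
  have h1 := col_primal hf (ob G x, s) hg ReflTransGen.refl
  have h2 := col_primal hf (ob G x, s) hh ReflTransGen.refl
  dsimp only at h1 h2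
  rw [T.e3, T.e2, ← smul_pt] at h1 h2
  obtain ⟨Z, ea, eb, ga, gb, z1, z2, a1, b1, -, hab, a2, a3, b2, b3⟩ :=
    Co.Cx.collapse_on (X := col_cx hf) (col_bd hf) (Co.Cx.her_rch (ob G x, s))
      (φ0 := l) ⟨hl, fun _ _ q => q.elim⟩ h1 h2 hne
  have fin : ∀ {e : Ar X2} {k : G} {p : Nd X0 X1} {ok : Ar X2 → Prop},
      (∀ a, ok a → (col_cx hf).pr a ∈ Z) → (col_cx hf).pr e ∈ Z →
      (col_cx hf).P ok p ((col_cx hf).src e) → (col_cx hf).P ok ((col_cx hf).tgt e) (k • p) →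
      Conn T.src (T.tgt φ) (ovr G (Z : Set (Ob G X2 × ℝ))) p (k • p) := fun o e u v =>
    col_conn hf (Co.Cx.P_trans (Co.Cx.P_trans (Co.Cx.P_mono o u) (Co.Cx.P_arc e))
      (Co.Cx.P_mono o v))
  refine ⟨Z, ⟨hs, Z.finite_toSet, fun z hz => ?_, fun q hq => ?_⟩, _, ga, gb, hab,
    fin (fun _ o => o.1) a1 a2 a3, fin (fun _ o => o.1) b1 b2 b3⟩
  · obtain ⟨on, a, rfl, -⟩ := z1 z hz
    refine ⟨a.ht, ?_⟩
    obtain ⟨y1, k1, e1, i1⟩ := col_inc_of (T := T) a.f false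
    have c : (col_cx hf).cell ((col_cx hf).pr a) false = (ob G y1, T.pos φ y1 k1 a.t) := by
      show (col_cx hf).cell (ob G a.f, a.t) false = _
      rw [← e1, col_cell hf i1]
    rw [c] at on
    obtain ⟨y, hy, hp⟩ := col_up hf (p := (x, s)) on
    obtain ⟨k, rfl⟩ := col_ob_eq hy.symm
    refine ⟨k • y1, k1, ?_, ?_⟩
    · rw [T.e3, col_ob_smul, e1]
      rfl
    · rw [col_pos_smul hf]
      exact col_lf.2 hp
  · exact (col_infZ hf _ q).2 (z2 _ ((col_infZ hf ∅ q).1 (hi q.1 q.2 ((col_lev hf hq).1 hs))))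

end Pool.Agent.Work.MP_3d425c_gt.Md
end

-- merged part: Pool.Agent.Work.MP_3d425c_gt.Ht.Shear
section
/-!
The shear lemma.
-/

namespace Pool.Agent.Work.MP_3d425c_gt.Ht

open Set Filter Topology Pool.Agent.Work.MP_3d425c_gt.Gn

namespace Prep

variable {W C S : Type} {X : Cx W C} {F : Flow X S} {Z : Set (W × ℝ)} {Lam : C → Set ℝ}
  (R : Prep X F Z Lam)

abbrev St : Type := {q : (R.Φ × (S ⊕ Z × Bool)) × ℕ // q.2 < R.n q.1}

abbrev Sl : Type := S ⊕ Z ⊕ R.St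

def face : R.Sl → W
  | .inl σ => F.face σ
  | .inr (.inl z) => z.1.1
  | .inr (.inr q) => (R.w q).1

def dir : R.Sl → Bool
  | .inl σ => F.dir σ
  | .inr (.inl _) => false
  | .inr (.inr q) => (R.w q).2

def src : R.Sl → Bool
  | .inl _ => false
  | .inr (.inl _) => true
  | .inr (.inr _) => false

def InJ (c : C) (s : ℝ) : Prop := ∃ φ ∈ R.Φ, φ.1 = c ∧ s ∈ Icc (R.α φ.2) (R.β φ.2)

/-- the transported interval -/
def I (p : R.Φ × (S ⊕ Z × Bool)) (k : ℕ) : Set ℝ :=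
  Icc (R.G p k (R.α p.1.1.2)) (R.G p k (R.β p.1.1.2))

def act : R.Sl × Bool → Set ℝ
  | (.inl σ, false) => {s | (X.j (F.face σ, F.dir σ)).symm s ∈ F.U σ ∧
      ¬R.InJ (X.cell (F.face σ, F.dir σ)) s}
  | (.inl σ, true) => {s | (X.j (F.face σ, !F.dir σ)).symm s ∈ F.U σ ∨
      R.InJ (X.cell (F.face σ, !F.dir σ)) s}
  | (.inr (.inl z), b) => {s | R.InJ (X.cell (z.1.1, cond b true false)) s}
  | (.inr (.inr q), false) => R.I q.1.1 q.1.2
  | (.inr (.inr q), true) => R.I q.1.1 (q.1.2 + 1)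

structure Marks (D : C → Finset ℝ) : Prop where
  off : ∀ c, ∀ d ∈ D c, d ∉ Lam c
  base : ∀ c, ∀ d ∈ F.D c, ¬R.InJ c d → d ∈ D c
  node : ∀ c, ∀ φ ∈ R.Φ, R.α φ.2 ∈ D c ∧ R.β φ.2 ∈ D c
  step : ∀ c p, ∀ k ≤ R.n p, R.G p k (R.α p.1.1.2) ∈ D c ∧ R.G p k (R.β p.1.1.2) ∈ D c

theorem exists_marks [Finite S] (hZ : Z.Finite) : ∃ D, R.Marks D := by
  have := R.fin.to_subtype
  have := hZ.to_subtype
  have f : ∀ c, ((F.D c ∩ {d | ¬R.InJ c d} ∪ ⋃ φ : R.Φ, {R.α φ.1.2, R.β φ.1.2}) ∪ ⋃ p, ⋃ k ∈ Iic (R.n p),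
      {R.G p k (R.α p.1.1.2), R.G p k (R.β p.1.1.2)} : Set ℝ).Finite := fun c =>
    (((F.D c).finite_toSet.inter_of_left _).union (finite_iUnion fun _ => toFinite _)).union
      (finite_iUnion fun p => (finite_Iic _).biUnion fun _ _ => toFinite _)
  refine ⟨fun c => (f c).toFinset, fun c d hd => ?_, fun c d h h' => ?_, fun c φ h => ?_,
    fun c p k h => ?_⟩
  · rcases (f c).mem_toFinset.1 hd with (h | h) | h
    · exact fun k => h.2 ⟨_, R.hD c d h.1 k, rfl, Ioo_subset_Icc_self (R.lt d)⟩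
    · obtain ⟨φ, rfl | rfl⟩ := mem_iUnion.1 h
      exacts [(R.off _ _).1, (R.off _ _).2]
    · obtain ⟨p, h⟩ := mem_iUnion.1 h
      obtain ⟨k, _, rfl | rfl⟩ := mem_iUnion₂.1 h
      exacts [(R.offG _ _ _ _).1, (R.offG _ _ _ _).2]
  · exact (f c).mem_toFinset.2 (Or.inl (Or.inl ⟨h, h'⟩))
  · exact ⟨(f c).mem_toFinset.2 (Or.inl (Or.inr (mem_iUnion.2 ⟨⟨φ, h⟩, Or.inl rfl⟩))),
      (f c).mem_toFinset.2 (Or.inl (Or.inr (mem_iUnion.2 ⟨⟨φ, h⟩, Or.inr rfl⟩)))⟩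
  · exact ⟨(f c).mem_toFinset.2 (Or.inr (mem_iUnion.2 ⟨p, mem_iUnion₂.2 ⟨k, h, Or.inl rfl⟩⟩)),
      (f c).mem_toFinset.2 (Or.inr (mem_iUnion.2 ⟨p, mem_iUnion₂.2 ⟨k, h, Or.inr rfl⟩⟩))⟩

variable {R} {D : C → Finset ℝ}

theorem Marks.inJ (M : R.Marks D) {c : C} {s s' : ℝ} (h : s ≤ s') (k : ∀ d ∈ D c, d ∉ Icc s s') :
    R.InJ c s ↔ R.InJ c s' :=
  exists_congr fun φ => and_congr_right fun hφ => and_congr_right fun _ =>
    icc_loc h (k _ (M.node c φ hφ).1) (k _ (M.node c φ hφ).2)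

theorem Marks.free (M : R.Marks D) {c : C} {s s' : ℝ} (k : ∀ d ∈ D c, d ∉ Icc s s')
    (h : ¬R.InJ c s) : ∀ d ∈ F.D c, d ∉ Icc s s' := fun d hd hd' =>
  k d (M.base c d hd fun e => h ((M.inJ hd'.1 fun a ha ha' =>
    k a ha ⟨ha'.1, ha'.2.trans hd'.2⟩).2 e)) hd'

theorem step_out (q : R.St) {t : ℝ} (h : X.j (R.w q) t ∈ R.I q.1.1 q.1.2) :
    t ∈ Ioo (0 : ℝ) 1 ∧ ((R.w q).1, t) ∉ Z ∧
      X.j ((R.w q).1, !(R.w q).2) t ∈ R.I q.1.1 (q.1.2 + 1) := by
  have h1 := (mem_Icc_conj _).1 h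
  have h2 := R.thin q _ h1
  rw [OrderIso.apply_symm_apply, OrderIso.symm_apply_apply] at h2
  refine ⟨h2.1, h2.2, (mem_Icc_conj _).2 ?_⟩
  convert h1 using 1
  rw [OrderIso.symm_apply_eq, R.Gw, RelIso.mul_apply, RelIso.mul_apply, OrderIso.apply_symm_apply,
    RelIso.inv_apply_self]

theorem step_in (h01 : ∀ z, ∀ t ∈ Ioo (0 : ℝ) 1, X.j z t ∈ Ioo (0 : ℝ) 1) (q : R.St) {s : ℝ}
    (h : s ∈ R.I q.1.1 (q.1.2 + 1)) : s ∈ Ioo (0 : ℝ) 1 := by
  have h2 := h01 ((R.w q).1, !(R.w q).2) _ (R.thin q _ ((mem_Icc_conj _).1 h)).1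
  have e : ∀ u, X.j ((R.w q).1, !(R.w q).2) ((X.j (R.w q)).symm (R.G q.1.1 q.1.2 u)) =
      R.G q.1.1 (q.1.2 + 1) u := fun u => by rw [R.Gw]; rfl
  rwa [e, OrderIso.apply_symm_apply] at h2

theorem hot [Finite S] (hZ : Z.Finite) (h01 : ∀ z, ∀ t ∈ Ioo (0 : ℝ) 1, X.j z t ∈ Ioo (0 : ℝ) 1)
    (M : R.Marks D) {sl : W → List R.Sl} (nd : ∀ w, (sl w).Nodup)
    (hm : ∀ w σ, σ ∈ sl w ↔ R.face σ = w) :
    Hot (X.refine R.face R.dir sl nd hm) R.src R.act D := by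
  have := R.fin.to_subtype
  have := hZ.to_subtype
  have := finite_steps R.n
  refine ⟨?_, ?_, fun c s hs => ?_⟩
  · rintro (σ | z | q) t h k
    · have k1 : (X.j (F.face σ, F.dir σ)).symm (X.j (F.face σ, F.dir σ) t) ∈ F.U σ := k.1
      rw [OrderIso.symm_apply_apply] at k1
      refine ⟨F.sub σ k1, Or.inl ?_⟩
      change (X.j (F.face σ, !F.dir σ)).symm (X.j (F.face σ, !F.dir σ) t) ∈ F.U σ
      rwa [OrderIso.symm_apply_apply]
    · exact absurd h (by simp [src])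
    · exact ⟨(step_out q k).1, (step_out q k).2.2⟩
  · rintro ⟨σ | z | q, _ | _⟩ s s' h k
    · by_cases e : R.InJ (X.cell (F.face σ, F.dir σ)) s
      · exact iff_of_false (fun a => a.2 e) fun a => a.2 ((M.inJ h k).1 e)
      · exact and_congr (F.loc σ _ s s' h (M.free k e)) (M.inJ h k).not
    · by_cases e : R.InJ (X.cell (F.face σ, !F.dir σ)) s
      · exact iff_of_true (Or.inr e) (Or.inr ((M.inJ h k).1 e))
      · exact or_congr (F.loc σ _ s s' h (M.free k e)) (M.inJ h k)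
    · exact M.inJ h k
    · exact M.inJ h k
    · exact icc_loc h (k _ (M.step _ _ _ q.2.le).1) (k _ (M.step _ _ _ q.2.le).2)
    · exact icc_loc h (k _ (M.step _ _ _ q.2).1) (k _ (M.step _ _ _ q.2).2)
  let I : Set (R.Sl × Bool) := {z | ∃ q : R.St, z = (.inr (.inr q), true) ∧ q.1.2 + 1 < R.n q.1.1 ∧
    R.c q.1.1 (q.1.2 + 1) = c ∧ s ∈ R.I q.1.1 (q.1.2 + 1)}
  let I' : Set (R.Sl × Bool) := {z | ∃ q : R.St, z = (.inr (.inr q), false) ∧ 0 < q.1.2 ∧
    R.c q.1.1 q.1.2 = c ∧ s ∈ R.I q.1.1 q.1.2}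
  have h6 : I.ncard ≤ I'.ncard := by
    refine le_trans (ncard_le_ncard ?_) (ncard_image_le (f := fun z : R.Sl × Bool =>
      match z.1 with
      | .inr (.inr q) => (.inr (.inr ⟨(q.1.1, q.1.2 - 1), (Nat.sub_le _ _).trans_lt q.2⟩), true)
      | _ => z))
    rintro _ ⟨q, rfl, a, b, e⟩
    exact ⟨_, ⟨⟨(q.1.1, q.1.2 + 1), a⟩, rfl, Nat.succ_pos _, b, e⟩, rfl⟩
  have h3 : I' ⊆ {z | (X.refine R.face R.dir sl nd hm).cell z = c ∧ s ∈ R.act z ∧
      inn R.src z = false} := by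
    rintro _ ⟨q, rfl, _, b, e⟩
    exact ⟨(R.cw q).trans b, e, rfl⟩
  by_cases J : R.InJ c s
  · obtain ⟨φ, hφ, a, b⟩ := id J
    let g : S ⊕ Z × Bool → R.Sl × Bool := Sum.elim (fun σ => (.inl σ, true))
      fun z => (.inr (.inl z.1), z.2)
    let g' : S ⊕ Z × Bool → R.Sl × Bool := fun e => (.inr (.inr ⟨((⟨φ, hφ⟩, e), 0), R.pos _⟩), false)
    refine cnt_le (A := g '' univ) (B := g' '' univ) ?_ ?_ h3 ?_ ?_ h6
    · rintro ⟨σ | z | q, _ | _⟩ ⟨k1, k2, k3⟩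
      · exact absurd k3 (by simp [inn, src])
      · exact Or.inl ⟨.inl σ, trivial, rfl⟩
      · exact Or.inl ⟨.inr (z, false), trivial, rfl⟩
      · exact Or.inl ⟨.inr (z, true), trivial, rfl⟩
      · exact absurd k3 (by simp [inn, src])
      · have k4 := (R.cw' q).symm.trans k1
        refine Or.inr ⟨q, rfl, lt_of_le_of_ne q.2 fun e => ?_, k4, k2⟩
        have k5 : s ∈ R.I q.1.1 (q.1.2 + 1) := k2
        rw [e] at k4 k5
        exact R.dj2 _ φ hφ (a.trans k4.symm) _ ((mem_Icc_conj _).1 k5)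
          (by rwa [OrderIso.apply_symm_apply])
    · rintro _ ⟨e, _, rfl⟩
      refine ⟨(R.cw _).trans ((R.c0 _).trans a), ?_, rfl⟩
      change s ∈ Icc _ _
      rw [R.G0]
      exact b
    · rw [disjoint_left]
      rintro _ ⟨e, _, rfl⟩ ⟨q, k1, k2, _⟩
      obtain rfl := Sum.inr.inj (Sum.inr.inj (Prod.mk.inj k1).1)
      exact k2.false
    · rw [ncard_image_of_injective _ (f := g') fun e e' k => congrArg (fun q : R.St => q.1.1.2)
        (Sum.inr.inj (Sum.inr.inj (Prod.mk.inj k).1))]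
      exact ncard_image_le
  by_cases hs1 : s ∈ Ioo (0 : ℝ) 1
  · let La : Set (R.Sl × Bool) := {z | ∃ q : R.St, z = (.inr (.inr q), true) ∧
      q.1.2 + 1 = R.n q.1.1 ∧ R.c q.1.1 (q.1.2 + 1) = c ∧ s ∈ R.I q.1.1 (q.1.2 + 1)}
    have hLa : La.ncard ≤ 1 := by
      rw [ncard_le_one]
      rintro _ ⟨⟨⟨p, k⟩, hq⟩, rfl, a, b, e⟩ _ ⟨⟨⟨p', k'⟩, hq'⟩, rfl, a', b', e'⟩
      dsimp only at a b e a' b' e'
      rw [a] at b e
      rw [a'] at b' e'
      obtain rfl : p = p' := by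
        by_contra ne
        exact R.dj3 p p' ne (b.trans b'.symm) _ ((mem_Icc_conj _).1 e) _ ((mem_Icc_conj _).1 e')
          (by rw [OrderIso.apply_symm_apply, OrderIso.apply_symm_apply])
      obtain rfl : k = k' := by omega
      rfl
    have su := F.sur c s hs1 fun k => hs (M.base c s k J)
    refine cnt_le (A := (fun σ => (.inl σ, true)) '' {σ | X.cell (F.face σ, !F.dir σ) = c ∧
      (X.j (F.face σ, !F.dir σ)).symm s ∈ F.U σ} ∪ La) (B := (fun σ => (.inl σ, false)) ''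
      {σ | X.cell (F.face σ, F.dir σ) = c ∧ (X.j (F.face σ, F.dir σ)).symm s ∈ F.U σ})
      ?_ ?_ h3 ?_ ?_ h6
    · rintro ⟨σ | z | q, _ | _⟩ ⟨k1, k2, k3⟩
      · exact absurd k3 (by simp [inn, src])
      · exact Or.inl (Or.inl ⟨σ, ⟨k1, Or.resolve_right k2 fun e => J (k1 ▸ e)⟩, rfl⟩)
      · exact (J (k1 ▸ k2)).elim
      · exact (J (k1 ▸ k2)).elim
      · exact absurd k3 (by simp [inn, src])
      · rcases lt_or_eq_of_le (show q.1.2 + 1 ≤ R.n q.1.1 from q.2) with e | e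
        · exact Or.inr ⟨q, rfl, e, (R.cw' q).symm.trans k1, k2⟩
        · exact Or.inl (Or.inr ⟨q, rfl, e, (R.cw' q).symm.trans k1, k2⟩)
    · rintro _ ⟨σ, ⟨k1, k2⟩, rfl⟩
      exact ⟨k1, ⟨k2, fun e => J (k1 ▸ e)⟩, rfl⟩
    · rw [disjoint_left]
      rintro _ ⟨e, _, rfl⟩ ⟨q, k1, _⟩
      exact absurd (Prod.mk.inj k1).1 (by simp)
    · refine (ncard_union_le _ _).trans ?_
      rw [ncard_image_of_injective _ fun _ _ k => Sum.inl.inj (Prod.mk.inj k).1,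
        ncard_image_of_injective _ fun _ _ k => Sum.inl.inj (Prod.mk.inj k).1]
      omega
  · refine le_trans (le_of_eq ((ncard_eq_zero (toFinite _)).2 (eq_empty_of_forall_notMem ?_)))
      (Nat.zero_le _)
    rintro ⟨σ | z | q, _ | _⟩ ⟨k1, k2, k3⟩
    · exact absurd k3 (by simp [inn, src])
    · have := h01 (F.face σ, !F.dir σ) _ (F.sub σ (Or.resolve_right k2 fun e => J (k1 ▸ e)))
      rw [OrderIso.apply_symm_apply] at this
      exact hs1 this
    · exact J (k1 ▸ k2)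
    · exact J (k1 ▸ k2)
    · exact absurd k3 (by simp [inn, src])
    · exact hs1 (step_in h01 q k2)

end Prep

/-- The shear lemma for an abstract invariant countable family of levels. -/
theorem shear_lam {W C S : Type} [Finite C] [Finite S] (X : Cx W C)
    (h01 : ∀ z, ∀ t ∈ Ioo (0 : ℝ) 1, X.j z t ∈ Ioo (0 : ℝ) 1) (F : Flow X S)
    {Z : Set (W × ℝ)} (hZ : Z.Finite) (hZ1 : ∀ z ∈ Z, z.2 ∈ Ioo (0 : ℝ) 1)
    {Lam : C → Set ℝ} (hL : ∀ c, (Lam c).Countable)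
    (cl : ∀ w b, ∀ t ∈ Ioo (0 : ℝ) 1, X.j (w, b) t ∈ Lam (X.cell (w, b)) →
      X.j (w, !b) t ∈ Lam (X.cell (w, !b)))
    (h1 : ∀ z ∈ Z, ∀ b, X.j (z.1, b) z.2 ∈ Lam (X.cell (z.1, b)))
    (h2 : ∀ c, ∀ s ∈ Lam c, {v | Relation.ReflTransGen (X.Adj Z) (c, s) v}.Infinite) :
    ∃ η > 0, ∀ ε > 0, ∃ δ > 0, ∀ h : W × ℝ → Au,
      (∀ z ∈ Z, SuppIn (z.2 - η) (z.2 + η) (h z) ∧ ∀ t, |h z t - t| ≤ δ) →
      ∃ H : W → Au, (∀ w, SuppIn 0 1 (H w)) ∧ (∀ w t, |H w t - t| ≤ ε) ∧ X.Flat H ∧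
        ∀ z ∈ Z, ∀ t ∈ Ioo (z.2 - η) (z.2 + η), H z.1 t = h z t := by
  classical
  obtain ⟨R⟩ := exists_prep X F hZ hL h1 h2
  obtain ⟨D, M⟩ := R.exists_marks hZ
  have := R.fin.to_subtype
  have := hZ.to_subtype
  have := finite_steps R.n
  have := Fintype.ofFinite R.Sl
  obtain ⟨sl, nd, hm⟩ : ∃ sl : W → List R.Sl, (∀ w, (sl w).Nodup) ∧
      ∀ w σ, σ ∈ sl w ↔ R.face σ = w :=
    ⟨fun w => (Finset.univ.filter fun σ => R.face σ = w).toList, fun _ => Finset.nodup_toList _,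
      fun w σ => by simp⟩
  have hot := Prep.hot hZ h01 M nd hm
  let x : R.Sl → ℝ := Sum.elim (fun _ => 0) (Sum.elim (fun z => z.1.2) fun _ => 0)
  obtain ⟨η₁, hη₁, K⟩ := hotel _ _ _ _ _ _ hot Lam M.off
    (fun σ t a b => cl _ _ t (hot.a1 σ t a b).1) x (by
      rintro (σ | z | q) b h
      · exact absurd h (by simp [Prep.src])
      · exact ⟨⟨_, R.hZ z z.2 _, rfl, Ioo_subset_Icc_self (R.lt _)⟩, h1 z z.2 _⟩
      · exact absurd h (by simp [Prep.src]))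
  have e1 : ∀ᶠ r in 𝓝[>] (0 : ℝ), ∀ z : Z, ∀ t ∈ Icc (z.1.2 - r) (z.1.2 + r),
      (1 : Au) t ∈ Ioo (0 : ℝ) 1 := eventually_all.2 fun z => ev_rad _ _ isOpen_Ioo (hZ1 z z.2)
  have e2 : ∀ᶠ r in 𝓝[>] (0 : ℝ), ∀ (z : Z) (b : Bool), ∀ t ∈ Icc (z.1.2 - r) (z.1.2 + r),
      X.j (z.1.1, b) t ∈ Ioo (R.α (X.j (z.1.1, b) z.1.2)) (R.β (X.j (z.1.1, b) z.1.2)) :=
    eventually_all.2 fun z => eventually_all.2 fun b => ev_rad _ _ isOpen_Ioo (R.lt _)
  have e3 : ∀ᶠ r in 𝓝[>] (0 : ℝ), ∀ (z : Z) (q : R.St), (R.w q).1 = z.1.1 →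
      ∀ t ∈ Icc (z.1.2 - r) (z.1.2 + r), X.j (R.w q) t ∈ (R.I q.1.1 q.1.2)ᶜ :=
    eventually_all.2 fun z => eventually_all.2 fun q => ev_imp fun e =>
      ev_rad _ _ isClosed_Icc.isOpen_compl fun k => (Prep.step_out q k).2.1 (e ▸ z.2)
  have e4 : ∀ᶠ r in 𝓝[>] (0 : ℝ), ∀ z z' : Z, z.1.2 ≠ z'.1.2 → ∀ s ∈ Icc (z.1.2 - r) (z.1.2 + r),
      ∀ s' ∈ Icc (z'.1.2 - r) (z'.1.2 + r), (1 : Au) s ≠ (1 : Au) s' :=
    eventually_all.2 fun z => eventually_all.2 fun z' => ev_imp fun e => ev_sep _ _ e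
  obtain ⟨η, ⟨⟨⟨r1, r2⟩, r3⟩, r4⟩, hη⟩ :=
    ((((e1.and e2).and e3).and e4).and (Ioo_mem_nhdsGT hη₁)).exists
  refine ⟨η, hη.1, fun ε hε => ?_⟩
  obtain ⟨δ, hδ, K⟩ := K (ε / (Fintype.card R.Sl + 1)) (by positivity)
  refine ⟨δ, hδ, fun h hh => ?_⟩
  obtain ⟨H, k1, k2, k3, k4⟩ := K (Sum.elim (fun _ => 1) (Sum.elim (fun z => h z.1) fun _ => 1)) (by
    rintro (σ | z | q) e
    · exact absurd e (by simp [Prep.src])
    · exact ⟨fun t ht => (hh z z.2).1 t fun k => ht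
        ⟨lt_trans (sub_lt_sub_left hη.2 _) k.1, k.2.trans (add_lt_add_right hη.2 _)⟩, (hh z z.2).2⟩
    · exact absurd e (by simp [Prep.src]))
  have k5 : ∀ z : Z, H (.inr (.inl z)) = h z.1 := fun z => k1 _ rfl
  refine ⟨fun w => ((sl w).map H).prod, fun w t ht => prod_fix H t _ ?_, fun w t => ?_,
    refine_flat k4, fun z hz t ht => ?_⟩
  · rintro (σ | z | q) _
    · exact k2 _ t rfl fun k => ht (hot.a1 _ t rfl k).1
    · rw [k5]
      exact (hh z z.2).1 t fun k => ht (r1 z t (Ioo_subset_Icc_self k))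
    · exact k2 _ t rfl fun k => ht (hot.a1 _ t rfl k).1
  · refine (prod_small H k3 _ t).trans ?_
    have : ((sl w).length : ℝ) ≤ Fintype.card R.Sl := by exact_mod_cast (nd w).length_le_card
    rw [← mul_div_assoc, div_le_iff₀ (by positivity)]
    nlinarith
  · rw [← k5 ⟨z, hz⟩]
    refine prod_single H _ (.inr (.inl ⟨z, hz⟩)) (fun s hs => ?_) (sl z.1) (nd _) ((hm _ _).2 rfl)
      ?_ t ht
    · rw [k5]
      exact (hh z hz).1.mem hs
    rintro (σ | z' | q) e ne s hs <;> replace e := (hm _ _).1 e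
    · refine k2 _ s rfl fun k => k.2 ⟨_, R.hZ z hz (F.dir σ), by rw [← e]; rfl, ?_⟩
      have := Ioo_subset_Icc_self (r2 ⟨z, hz⟩ (F.dir σ) s (Ioo_subset_Icc_self hs))
      rwa [← e] at this ⊢
    · rw [k5]
      exact (hh z' z'.2).1 s fun k => r4 z' ⟨z, hz⟩
        (fun e' => ne (by rw [show z' = ⟨z, hz⟩ from Subtype.ext (Prod.ext e e')])) s
        (Ioo_subset_Icc_self k) s (Ioo_subset_Icc_self hs) rfl
    · exact k2 _ s rfl (r3 ⟨z, hz⟩ q e s (Ioo_subset_Icc_self hs))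

theorem shear : S_shear := by
  intro W C S _ _ _ X h01 ⟨F⟩ Z hZ hZ1 u₀ _ h1 h2
  have cl : ∀ w b, ∀ t ∈ Ioo (0 : ℝ) 1,
      Relation.ReflTransGen (X.Adj ∅) u₀ (X.cell (w, b), X.j (w, b) t) →
      Relation.ReflTransGen (X.Adj ∅) u₀ (X.cell (w, !b), X.j (w, !b) t) :=
    fun w b t ht k => k.tail ⟨w, t, b, ht, notMem_empty _, rfl, rfl⟩
  refine shear_lam X h01 F hZ hZ1 (Lam := fun c => {s | Relation.ReflTransGen (X.Adj ∅) u₀ (c, s)})
    (fun c => (reach_countable X u₀).preimage (Prod.mk_right_injective c)) cl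
    (fun z hz b => ?_) fun c s hs => h2 _ hs
  cases b
  · exact h1 z hz
  · exact cl _ false _ (hZ1 z hz) (h1 z hz)

/-- Version without a base node. -/
theorem shear_all {W C S : Type} [Finite W] [Finite C] [Finite S] (X : Cx W C)
    (h01 : ∀ z, ∀ t ∈ Ioo (0 : ℝ) 1, X.j z t ∈ Ioo (0 : ℝ) 1) (F : Flow X S)
    {Z : Set (W × ℝ)} (hZ : Z.Finite) (hZ1 : ∀ z ∈ Z, z.2 ∈ Ioo (0 : ℝ) 1)
    (h2 : ∀ z ∈ Z, ∀ u, Relation.ReflTransGen (X.Adj ∅) (X.cell (z.1, false), X.j (z.1, false) z.2) u →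
      {v | Relation.ReflTransGen (X.Adj Z) u v}.Infinite) :
    ∃ η > 0, ∀ ε > 0, ∃ δ > 0, ∀ h : W × ℝ → Au,
      (∀ z ∈ Z, SuppIn (z.2 - η) (z.2 + η) (h z) ∧ ∀ t, |h z t - t| ≤ δ) →
      ∃ H : W → Au, (∀ w, SuppIn 0 1 (H w)) ∧ (∀ w t, |H w t - t| ≤ ε) ∧ X.Flat H ∧
        ∀ z ∈ Z, ∀ t ∈ Ioo (z.2 - η) (z.2 + η), H z.1 t = h z t := by
  refine shear_lam X h01 F hZ hZ1 (Lam := fun c => {s | ∃ z ∈ Z, Relation.ReflTransGen (X.Adj ∅)
    (X.cell (z.1, false), X.j (z.1, false) z.2) (c, s)}) (fun c => ?_)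
    (fun w b t ht ⟨z, hz, k⟩ => ⟨z, hz, k.tail ⟨w, t, b, ht, notMem_empty _, rfl, rfl⟩⟩)
    (fun z hz b => ⟨z, hz, ?_⟩) fun c s ⟨z, hz, k⟩ => h2 z hz _ k
  · refine (hZ.countable.biUnion fun z _ => (reach_countable X
      (X.cell (z.1, false), X.j (z.1, false) z.2)).preimage (Prod.mk_right_injective c)).mono ?_
    exact fun s ⟨z, hz, k⟩ => mem_biUnion hz k
  · cases b
    · exact .refl
    · exact .single ⟨z.1, z.2, false, hZ1 z hz, notMem_empty _, rfl, rfl⟩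

end Pool.Agent.Work.MP_3d425c_gt.Ht
end

-- merged part: Pool.Agent.Work.MP_3d425c_gt.Gn.Pre
section
/-! Preliminaries: a linear bound for non-negative vectors, the positive Farkas alternative,
and left orders from a real character. -/

namespace Pool.Agent.Work.MP_3d425c_gt.Gn
open Set Pool.Agent.Work.MP_3d425c_gt.Cy

/-- A linear map with no non-zero non-negative kernel vector bounds non-negative vectors. -/
theorem ac_bound {ι κ : Type*} [Fintype ι] [Fintype κ] (A : (ι → ℝ) →ₗ[ℝ] (κ → ℝ))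
    (h : ∀ n : ι → ℝ, (∀ i, 0 ≤ n i) → A n = 0 → n = 0) :
    ∃ C : ℝ, 0 ≤ C ∧ ∀ n : ι → ℝ, (∀ i, 0 ≤ n i) → ∀ D : ℝ, (∀ k, |A n k| ≤ D) → 0 ≤ D →
      ∀ i, n i ≤ C * D := by
  classical
  by_cases hι : Nonempty ι
  swap
  · exact ⟨0, le_rfl, fun n _ D _ _ i => absurd ⟨i⟩ hι⟩
  have hc : Continuous A := A.continuous_of_finiteDimensional
  obtain ⟨m, hm, hmin⟩ := (isCompact_stdSimplex ℝ ι).exists_isMinOn
    (f := fun n => ‖A n‖) (Set.Nonempty.of_subtype) (hc.norm.continuousOn)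
  have hpos : 0 < ‖A m‖ := by
    rw [norm_pos_iff]
    intro e
    have h0 := h m hm.1 e
    have h1 := hm.2
    rw [h0] at h1
    simp at h1
  refine ⟨‖A m‖⁻¹, by positivity, fun n hn D hD hD0 i => ?_⟩
  have hs : 0 ≤ ∑ j, n j := Finset.sum_nonneg fun j _ => hn j
  have hi : n i ≤ ∑ j, n j := Finset.single_le_sum (fun j _ => hn j) (Finset.mem_univ i)
  rcases hs.eq_or_lt with e | hs
  · rw [← e] at hi
    exact hi.trans (by positivity)
  have hmem : (∑ j, n j)⁻¹ • n ∈ stdSimplex ℝ ι := by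
    refine ⟨fun j => mul_nonneg (inv_nonneg.2 hs.le) (hn j), ?_⟩
    simp only [Pi.smul_apply, smul_eq_mul]
    rw [← Finset.mul_sum, inv_mul_cancel₀ hs.ne']
  have h1 : ‖A m‖ ≤ ‖A ((∑ j, n j)⁻¹ • n)‖ := hmin hmem
  have h2 : ‖A n‖ ≤ D := (pi_norm_le_iff_of_nonneg hD0).2 fun k => by
    simpa [Real.norm_eq_abs] using hD k
  rw [map_smul, norm_smul, Real.norm_eq_abs, abs_of_pos (inv_pos.2 hs)] at h1
  have h3 : (∑ j, n j) * ‖A m‖ ≤ D := by
    have := mul_le_mul_of_nonneg_left h1 hs.le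
    rw [← mul_assoc, mul_inv_cancel₀ hs.ne', one_mul] at this
    exact this.trans h2
  refine hi.trans ?_
  rw [inv_mul_eq_div, le_div_iff₀ hpos]
  exact h3

/-- Positive Farkas alternative. -/
theorem farkas_pos {ι κ : Type*} [Fintype ι] [Fintype κ] [DecidableEq ι]
    (A : (ι → ℝ) →ₗ[ℝ] (κ → ℝ))
    (h : ∀ n : ι → ℝ, (∀ i, 0 ≤ n i) → A n = 0 → n = 0) :
    ∃ β : κ → ℝ, ∀ i, 0 < ∑ k, β k * A (Pi.single i 1) k := by
  classical
  have hc : Continuous A := A.continuous_of_finiteDimensional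
  have hK : IsCompact (A '' stdSimplex ℝ ι) := (isCompact_stdSimplex ℝ ι).image hc
  have hV : Convex ℝ (A '' stdSimplex ℝ ι) := (convex_stdSimplex ℝ ι).linear_image A
  have h0 : (0 : κ → ℝ) ∉ A '' stdSimplex ℝ ι := by
    rintro ⟨m, hm, e⟩
    have h0 := h m hm.1 e
    have h1 := hm.2
    rw [h0] at h1
    simp at h1
  obtain ⟨f, u, hu, hf⟩ := geometric_hahn_banach_point_closed hV hK.isClosed h0
  refine ⟨fun k => f (Pi.single k 1), fun i => ?_⟩
  have h1 := hf _ ⟨Pi.single i 1, single_mem_stdSimplex ℝ i, rfl⟩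
  have h2 : f (A (Pi.single i 1)) = ∑ k, f (Pi.single k 1) * A (Pi.single i 1) k := by
    generalize A (Pi.single i 1) = v
    conv_lhs => rw [← Finset.univ_sum_single v]
    rw [map_sum]
    refine Finset.sum_congr rfl fun k _ => ?_
    have : (Pi.single k (v k) : κ → ℝ) = v k • (Pi.single k 1 : κ → ℝ) := by
      rw [← Pi.single_smul, smul_eq_mul, mul_one]
    rw [this, map_smul, smul_eq_mul, mul_comm]
  rw [map_zero] at hu
  rw [← h2]
  exact hu.trans h1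

/-- A non-trivial real character gives a left order. -/
theorem lo_of_hom {G : Type*} [Group G] (h : Hyp G) (hB : Big G)
    (φ : G →* Multiplicative ℝ) (hφ : φ ≠ 1) :
    ∃ r : G → G → Prop, IsStrictTotalOrder G r ∧ ∀ a b c, r a b ↔ r (c * a) (c * b) := by
  obtain ⟨g, hg⟩ : ∃ g, φ g ≠ 1 := by
    by_contra hn
    push Not at hn
    exact hφ (MonoidHom.ext hn)
  obtain ⟨P, hP⟩ := exists_cone h hB φ.ker ⊥ bot_le
    (fun a ha b hb => by rw [Subgroup.mem_bot.1 ha, one_mul, mul_one])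
    (fun E hE hF => by
      obtain ⟨n, hn, -, hm⟩ := E.exists_pow_mem_of_index_ne_zero hF.index_ne_zero g
      have h1 : φ g ^ n = 1 := by rw [← map_pow]; exact hE hm
      have h2 : (n : ℝ) * Multiplicative.toAdd (φ g) = 0 := by
        simpa using congrArg Multiplicative.toAdd h1
      rcases mul_eq_zero.1 h2 with h3 | h3
      · exact hn.ne' (by exact_mod_cast h3)
      · exact hg h3)
    (fun κ hκ h1 => absurd (Subgroup.mem_bot.1 hκ) h1)
  have hc : ∀ a b c : G, (φ a < φ b ∨ (φ a = φ b ∧ a⁻¹ * b ∈ P)) →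
      φ (c * a) < φ (c * b) ∨ (φ (c * a) = φ (c * b) ∧ (c * a)⁻¹ * (c * b) ∈ P) := by
    rintro a b c (h1 | ⟨h1, h2⟩)
    · rw [map_mul, map_mul]
      exact Or.inl (mul_lt_mul_right h1 _)
    · refine Or.inr ⟨by rw [map_mul, map_mul, h1], ?_⟩
      rwa [mul_inv_rev, mul_assoc, inv_mul_cancel_left]
  refine ⟨fun a b => φ a < φ b ∨ (φ a = φ b ∧ a⁻¹ * b ∈ P), ?_, fun a b c =>
    ⟨hc a b c, fun h1 => by simpa using hc _ _ c⁻¹ h1⟩⟩
  refine { trichotomous := fun a b h1 h2 => ?_, irrefl := fun a => ?_, trans := ?_ }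
  · have e : φ a = φ b :=
      le_antisymm (not_lt.1 fun h3 => h2 (Or.inl h3)) (not_lt.1 fun h3 => h1 (Or.inl h3))
    have hs : a⁻¹ * b ∈ φ.ker := by
      rw [MonoidHom.mem_ker, map_mul, map_inv, e, inv_mul_cancel]
    by_contra hab
    rcases hP.tot _ hs (fun h3 => hab (inv_mul_eq_one.mp (Subgroup.mem_bot.1 h3))) with h3 | h3
    · exact h1 (Or.inr ⟨e, h3⟩)
    · exact h2 (Or.inr ⟨e.symm, by simpa using h3⟩)
  · rintro (h1 | ⟨-, h1⟩)
    · exact lt_irrefl _ h1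
    · exact hP.notK _ h1 (by simp)
  · rintro a b c (h1 | ⟨h1, h2⟩) (h3 | ⟨h3, h4⟩)
    · exact Or.inl (h1.trans h3)
    · exact Or.inl (h3 ▸ h1)
    · exact Or.inl (h1 ▸ h3)
    · exact Or.inr ⟨h1.trans h3, by simpa [mul_assoc] using hP.mul _ h2 _ h4⟩

end Pool.Agent.Work.MP_3d425c_gt.Gn
end

-- merged part: Pool.Agent.Work.MP_3d425c_gt.Sk.Flow
section
/-! Integer flows with surplus, and finiteness consequences. -/

namespace Pool.Agent.Work.MP_3d425c_gt.Sk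
open Set Pool.Agent.Work.MP_3d425c_gt.Gn Pool.Agent.Work.MP_3d425c_gt.Ht

/-- Integer form of the positive alternative. -/
theorem farkas_int {ι κ : Type*} [Fintype ι] [Fintype κ] (M : ι → κ → ℤ)
    (h : ∀ n : ι → ℝ, (∀ i, 0 ≤ n i) → (∀ k, ∑ i, n i * (M i k : ℝ) = 0) → ∀ i, n i = 0) :
    ∃ y : κ → ℤ, ∀ i, 0 < ∑ k, y k * M i k := by
  classical
  let A : (ι → ℝ) →ₗ[ℝ] (κ → ℝ) :=
    { toFun := fun n k => ∑ i, n i * (M i k : ℝ)
      map_add' := fun a b => by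
        funext k
        simp [add_mul, Finset.sum_add_distrib]
      map_smul' := fun r a => by
        funext k
        simp [Finset.mul_sum, mul_assoc] }
  obtain ⟨β, hβ⟩ := farkas_pos A fun n hn e => funext (h n hn fun k => congrFun e k)
  have hβ' : ∀ i, 0 < ∑ k, β k * (M i k : ℝ) := fun i => by
    have := hβ i
    simpa [A, Pi.single_apply] using this
  have : ∀ i, ∃ N : ℕ, ∑ k, |(M i k : ℝ)| < N * ∑ k, β k * (M i k : ℝ) := fun i => by
    obtain ⟨N, hN⟩ := exists_nat_gt ((∑ k, |(M i k : ℝ)|) / ∑ k, β k * (M i k : ℝ))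
    exact ⟨N, (div_lt_iff₀ (hβ' i)).1 hN⟩
  choose N hN using this
  set B : ℕ := Finset.univ.sup N
  refine ⟨fun k => ⌊B * β k⌋, fun i => ?_⟩
  have h1 : (N i : ℝ) ≤ B := by exact_mod_cast Finset.le_sup (f := N) (Finset.mem_univ i)
  have h2 : ∑ k, |(M i k : ℝ)| < ∑ k, B * β k * (M i k : ℝ) := by
    refine (hN i).trans_le ((mul_le_mul_of_nonneg_right h1 (hβ' i).le).trans_eq ?_)
    rw [Finset.mul_sum]
    exact Finset.sum_congr rfl fun k _ => (mul_assoc _ _ _).symm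
  have h3 : ∑ k, (B * β k * (M i k : ℝ) - |(M i k : ℝ)|) ≤ ∑ k, (⌊B * β k⌋ : ℝ) * (M i k : ℝ) := by
    refine Finset.sum_le_sum fun k _ => ?_
    have a := Int.floor_le (B * β k)
    have b := Int.lt_floor_add_one (B * β k)
    rcases le_total 0 (M i k : ℝ) with c | c
    · rw [abs_of_nonneg c]; nlinarith
    · rw [abs_of_nonpos c]; nlinarith
  rw [Finset.sum_sub_distrib] at h3
  have : (0 : ℝ) < ∑ k, (⌊B * β k⌋ : ℝ) * (M i k : ℝ) := by linarith
  exact_mod_cast this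

/-- An increasing potential with invariant differences is constant along recurrent edges. -/
theorem potential_const {G V : Type*} [Group G] [MulAction G V] (Ed : V → V → Prop)
    (conn : ∀ P : V → Prop, (∀ u v, Ed u v → (P u ↔ P v)) → ∀ u v, P u → P v)
    (h0 : ∀ χ : G →* Multiplicative ℝ, χ = 1) (s : V → ℝ) (mono : ∀ u v, Ed u v → s u ≤ s v)
    (inv : ∀ (g : G) u v, Ed u v → s (g • v) - s (g • u) = s v - s u) {u v : V} (huv : Ed u v)
    (rec : ∃ g : G, Relation.ReflTransGen Ed v (g • u)) : s v = s u := by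
  have key : ∀ (g : G) w, s (g • w) - s w = s (g • u) - s u := fun g w =>
    conn (fun w => s (g • w) - s w = s (g • u) - s u)
      (fun a b hab => by
        have := inv g a b hab
        constructor <;> intro e <;> linarith) u w rfl
  let χ : G →* Multiplicative ℝ :=
    { toFun := fun g => Multiplicative.ofAdd (s (g • u) - s u)
      map_one' := by simp
      map_mul' := fun g k => by
        rw [← ofAdd_add, mul_smul]
        have := key g (k • u)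
        exact congrArg _ (by linarith) }
  obtain ⟨g, hg⟩ := rec
  have e : s (g • u) - s u = 0 := by
    have := congrArg Multiplicative.toAdd (DFunLike.congr_fun (h0 χ) g)
    simpa [χ] using this
  have le : ∀ w, Relation.ReflTransGen Ed v w → s v ≤ s w := fun w hw => by
    induction hw with
    | refl => exact le_rfl
    | tail _ h ih => exact ih.trans (mono _ _ h)
  have := le _ hg
  have := mono u v huv
  linarith

open Classical in
/-- A finite closed set of nodes with positive surplus at each node is empty. -/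
theorem closed_empty {N S : Type*} [Fintype S] (U : S → Set ℝ) (tl hd : S → ℝ → N)
    (itl : ∀ σ, Function.Injective (tl σ)) (ihd : ∀ σ, Function.Injective (hd σ)) (y : S → ℤ)
    (K : Set N) (hK : K.Finite) (hcl : ∀ σ, ∀ t ∈ U σ, tl σ t ∈ K ↔ hd σ t ∈ K)
    (hsur : ∀ x ∈ K, 0 < ∑ σ, y σ * ((if ∃ t ∈ U σ, tl σ t = x then 1 else 0) -
      (if ∃ t ∈ U σ, hd σ t = x then 1 else 0))) : K = ∅ := by
  by_contra hne
  have hne' : hK.toFinset.Nonempty := by simpa using nonempty_iff_ne_empty.2 hne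
  have pos := Finset.sum_pos (s := hK.toFinset) (fun x hx => hsur x (hK.mem_toFinset.1 hx)) hne'
  rw [Finset.sum_comm] at pos
  refine pos.ne' (Finset.sum_eq_zero fun σ _ => ?_)
  rw [← Finset.mul_sum, Finset.sum_sub_distrib, Finset.sum_boole, Finset.sum_boole]
  refine mul_eq_zero_of_right _ (sub_eq_zero.2 (congrArg _ ?_))
  refine Finset.card_bij (fun x hx => hd σ (Finset.mem_filter.1 hx).2.choose) ?_ ?_ ?_
  · intro x hx
    obtain ⟨a, b⟩ := (Finset.mem_filter.1 hx).2.choose_spec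
    exact Finset.mem_filter.2 ⟨hK.mem_toFinset.2 ((hcl σ _ a).1
      (b.symm ▸ hK.mem_toFinset.1 (Finset.mem_filter.1 hx).1)), _, a, rfl⟩
  · intro x hx x' hx' e
    have a := (Finset.mem_filter.1 hx).2.choose_spec.2
    have b := (Finset.mem_filter.1 hx').2.choose_spec.2
    rw [← a, ← b]
    exact congrArg _ (ihd σ e)
  · intro x hx
    obtain ⟨a, t, ht, rfl⟩ := Finset.mem_filter.1 hx
    have m : tl σ t ∈ hK.toFinset.filter fun x => ∃ t ∈ U σ, tl σ t = x :=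
      Finset.mem_filter.2 ⟨hK.mem_toFinset.2 ((hcl σ t ht).2 (hK.mem_toFinset.1 a)), t, ht, rfl⟩
    exact ⟨_, m, congrArg _ (itl σ (Finset.mem_filter.1 m).2.choose_spec.2)⟩

section Sur
variable {W C P : Type} (X : Cx W C) (face : P → W) (lo hi : P → ℝ)

/-- The part `p` of an arc type is active at its end `b` in the node `(c, s)`. -/
def Act (p : P) (b : Bool) (c : C) (s : ℝ) : Prop :=
  X.cell (face p, b) = c ∧ (X.j (face p, b)).symm s ∈ Ico (lo p) (hi p)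

open Classical in
/-- Integer weights on parts of arc types with positive divergence at every node. -/
def Sur [Fintype P] (y : P → ℤ) : Prop :=
  ∀ c, ∀ s ∈ Ico (0 : ℝ) 1, 0 < ∑ p, y p * ((if Act X face lo hi p false c s then 1 else 0) -
    (if Act X face lo hi p true c s then 1 else 0))

variable {X face lo hi}

theorem ncard_sigma {P : Type} [Fintype P] (k : P → ℕ) (Q : P → Prop) [DecidablePred Q] :
    (({σ : Σ p, Fin (k p) | Q σ.1}.ncard : ℕ) : ℤ) = ∑ p, if Q p then (k p : ℤ) else 0 := by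
  classical
  rw [ncard_eq_toFinset_card', toFinset_ofPred, Finset.card_filter, Fintype.sum_sigma]
  push_cast
  refine Finset.sum_congr rfl fun p _ => ?_
  split_ifs <;> simp

theorem flow_of_sur [Fintype P] (h0 : ∀ p, 0 ≤ lo p) (h1 : ∀ p, hi p ≤ 1) {y : P → ℤ}
    (hy : Sur X face lo hi y) : ∃ (S : Type) (_ : Finite S), Nonempty (Flow X S) := by
  classical
  let D : C → Finset ℝ := fun _ =>
    (Finset.univ.image fun q : P × Bool => X.j (face q.1, q.2) (lo q.1)) ∪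
      Finset.univ.image fun q : P × Bool => X.j (face q.1, q.2) (hi q.1)
  have dl : ∀ c p b, X.j (face p, b) (lo p) ∈ D c := fun c p b =>
    Finset.mem_union_left _ (Finset.mem_image.2 ⟨(p, b), Finset.mem_univ _, rfl⟩)
  have dh : ∀ c p b, X.j (face p, b) (hi p) ∈ D c := fun c p b =>
    Finset.mem_union_right _ (Finset.mem_image.2 ⟨(p, b), Finset.mem_univ _, rfl⟩)
  refine ⟨Σ p, Fin (y p).natAbs, inferInstance, ⟨⟨fun σ => face σ.1, fun σ => decide (y σ.1 < 0),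
    fun σ => Ioo (lo σ.1) (hi σ.1), D, fun σ => Ioo_subset_Ioo (h0 _) (h1 _), ?_, ?_⟩⟩⟩
  · intro σ b s s' hs hd
    have a := hd _ (dl (X.cell (face σ.1, b)) σ.1 b)
    have a' := hd _ (dh (X.cell (face σ.1, b)) σ.1 b)
    simp only [mem_Ioo, OrderIso.lt_symm_apply, OrderIso.symm_apply_lt, mem_Icc, not_and,
      not_le] at a a' ⊢
    constructor
    · rintro ⟨u, v⟩
      exact ⟨u.trans_le hs, a' v.le⟩
    · rintro ⟨u, v⟩
      exact ⟨lt_of_not_ge fun e => absurd u (a e).not_gt, hs.trans_lt v⟩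
  · intro c s hs hd
    have key : ∀ p b, (X.cell (face p, b) = c ∧ (X.j (face p, b)).symm s ∈ Ioo (lo p) (hi p)) ↔
        Act X face lo hi p b c s := fun p b => and_congr_right fun _ =>
      ⟨fun a => Ioo_subset_Ico_self a, fun a => ⟨lt_of_le_of_ne a.1 fun e =>
        hd (by have := dl c p b; rwa [e, OrderIso.apply_symm_apply] at this), a.2⟩⟩
    simp only [key]
    have pos := hy c s (Ioo_subset_Ico_self hs)
    have e1 := ncard_sigma (fun p => (y p).natAbs)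
      fun p => Act X face lo hi p (!decide (y p < 0)) c s
    have e2 := ncard_sigma (fun p => (y p).natAbs)
      fun p => Act X face lo hi p (decide (y p < 0)) c s
    refine Int.ofNat_lt.1 ?_
    rw [e1, e2, ← sub_pos, ← Finset.sum_sub_distrib]
    refine pos.trans_eq (Finset.sum_congr rfl fun p _ => ?_)
    by_cases hp : y p < 0
    · simp only [hp, decide_true, Bool.not_true]
      split_ifs <;> omega
    · simp only [hp, decide_false, Bool.not_false]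
      split_ifs <;> omega

theorem comp_infinite [Fintype P] [Finite C] (h0 : ∀ p, 0 ≤ lo p) (h1 : ∀ p, hi p ≤ 1)
    {y : P → ℤ} (hy : Sur X face lo hi y) (hj : ∀ z, ∀ t ∈ Ioo (0 : ℝ) 1, X.j z t ∈ Ioo (0 : ℝ) 1)
    {V : Type*} (vt : C → V) (vf : W → V) (hv : ∀ z, X.j z 0 = 0 → vt (X.cell z) = vf z.1)
    (heq : ∀ z z', vf z.1 = vf z'.1 → X.j z 0 ≠ 0 → X.j z' 0 ≠ 0 →
      Relation.ReflTransGen (X.Adj ∅) (X.cell z, X.j z 0) (X.cell z', X.j z' 0))
    (u : C × ℝ) (hu : u.2 ∈ Ioo (0 : ℝ) 1) :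
    {v | Relation.ReflTransGen (X.Adj ∅) u v}.Infinite := by
  classical
  intro hK
  set K := {v | Relation.ReflTransGen (X.Adj ∅) u v} with hKd
  have kI : ∀ v ∈ K, v.2 ∈ Ioo (0 : ℝ) 1 := fun v hv => by
    induction hv with
    | refl => exact hu
    | tail _ h _ =>
      obtain ⟨w, t, b, ht, -, -, rfl⟩ := h
      exact hj _ t ht
  let R : V → Prop := fun v => ∃ z, vf z.1 = v ∧ X.j z 0 ≠ 0 ∧ (X.cell z, X.j z 0) ∈ K
  let K' : Set (C × ℝ) := K ∪ (fun c => (c, (0 : ℝ))) '' {c | R (vt c)}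
  have m0 : ∀ z, (X.cell z, X.j z 0) ∈ K' ↔ R (vf z.1) := fun z => by
    by_cases e : X.j z 0 = 0
    · rw [e, ← hv z e]
      refine ⟨?_, fun a => Or.inr ⟨_, a, rfl⟩⟩
      rintro (a | ⟨c, a, b⟩)
      · exact absurd (kI _ a).1 (lt_irrefl _)
      · obtain rfl : c = X.cell z := (Prod.ext_iff.1 b).1
        exact a
    · constructor
      · rintro (a | ⟨c, -, b⟩)
        · exact ⟨z, rfl, e, a⟩
        · exact absurd (Prod.ext_iff.1 b).2.symm e
      · rintro ⟨z', a, b, d⟩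
        exact Or.inl (Relation.ReflTransGen.trans d (heq z' z a b e))
  have m1 : ∀ w b, ∀ t ∈ Ioo (0 : ℝ) 1, (X.cell (w, b), X.j (w, b) t) ∈ K' →
      (X.cell (w, !b), X.j (w, !b) t) ∈ K' := by
    rintro w b t ht (a | ⟨c, -, a⟩)
    · exact Or.inl (Relation.ReflTransGen.tail a ⟨w, t, b, ht, fun h => h, rfl, rfl⟩)
    · exact absurd (Prod.ext_iff.1 a).2 (hj _ t ht).1.ne
  have := closed_empty (fun p => Ico (lo p) (hi p))
    (fun p t => (X.cell (face p, false), X.j (face p, false) t))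
    (fun p t => (X.cell (face p, true), X.j (face p, true) t))
    (fun p a b e => (X.j _).injective (Prod.ext_iff.1 e).2)
    (fun p a b e => (X.j _).injective (Prod.ext_iff.1 e).2) y K'
    (hK.union ((toFinite _).image _)) (fun p t ht => by
      rcases ((h0 p).trans ht.1).eq_or_lt with rfl | e
      · exact (m0 (face p, false)).trans (m0 (face p, true)).symm
      · exact ⟨m1 _ false t ⟨e, ht.2.trans_le (h1 p)⟩, m1 _ true t ⟨e, ht.2.trans_le (h1 p)⟩⟩)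
    (fun x hx => by
      have hx' : x.2 ∈ Ico (0 : ℝ) 1 := by
        rcases hx with a | ⟨c, -, rfl⟩
        · exact Ioo_subset_Ico_self (kI x a)
        · exact ⟨le_rfl, zero_lt_one⟩
      have key : ∀ p b, (∃ t ∈ Ico (lo p) (hi p), (X.cell (face p, b), X.j (face p, b) t) = x) ↔
          Act X face lo hi p b x.1 x.2 := fun p b =>
        ⟨fun ⟨t, a, e⟩ => e ▸ ⟨rfl, by simpa using a⟩,
          fun a => ⟨_, a.2, Prod.ext a.1 (by simp)⟩⟩
      simp only [key]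
      exact hy x.1 x.2 hx')
  exact (this ▸ (Or.inl Relation.ReflTransGen.refl : u ∈ K') : u ∈ (∅ : Set (C × ℝ)))

end Sur

section Tet
variable {W C : Type}

/-- The gap `k` of a tetrahedron lies in part `p` of the face omitting vertex `i`. -/
def gap (i : Fin 4) (p : Fin 2) (k : Fin 3) : Prop :=
  i.succAbove p.castSucc ≤ k.castSucc ∧ k.castSucc < i.succAbove p.succ

instance (i : Fin 4) (p : Fin 2) (k : Fin 3) : Decidable (gap i p k) := by
  unfold gap; infer_instance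

/-- Tetrahedral cells: `f c i` is the end at `c` of the face omitting vertex `i`; `mk w` lists the
levels `0`, mark, `1` of the face `w` and `lv c` the four vertex levels of `c`. -/
structure Tet (X : Cx W C) (f : C → Fin 4 → W × Bool) (mk : W → Fin 3 → ℝ)
    (lv : C → Fin 4 → ℝ) : Prop where
  cell : ∀ c i, X.cell (f c i) = c
  surj : ∀ z, ∃ i, f (X.cell z) i = z
  mono : ∀ c, StrictMono (lv c)
  bot : ∀ c, lv c 0 = 0
  top : ∀ c, lv c 3 = 1
  lev : ∀ c i m, X.j (f c i) (mk (f c i).1 m) = lv c (i.succAbove m)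

theorem sur_of_tet [Fintype W] [Finite C] {X : Cx W C} {f : C → Fin 4 → W × Bool}
    {mk : W → Fin 3 → ℝ} {lv : C → Fin 4 → ℝ} (h : Tet X f mk lv)
    (nb : ∀ (n : C → Fin 3 → ℝ) (l : W → Fin 2 → ℝ), (∀ c k, 0 ≤ n c k) →
      (∀ c i p, l (f c i).1 p = ∑ k, if gap i p k then n c k else 0) → ∀ c k, n c k = 0) :
    ∃ y : W × Fin 2 → ℤ, Sur X Prod.fst (fun q => mk q.1 q.2.castSucc)
      (fun q => mk q.1 q.2.succ) y := by
  classical
  have := Fintype.ofFinite C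
  choose ix hix using h.surj
  let a : C × Fin 3 → W × Fin 2 → Bool → Prop := fun x q b =>
    X.cell (q.1, b) = x.1 ∧ gap (ix (q.1, b)) q.2 x.2
  have inj : ∀ c i, ix (f c i) = i := by
    intro c i
    have e := hix (f c i)
    rw [h.cell] at e
    have e1 : ∀ m, lv c ((ix (f c i)).succAbove m) = lv c (i.succAbove m) := fun m =>
      (h.lev c (ix (f c i)) m).symm.trans (by rw [e]; exact h.lev c i m)
    have e2 := fun m => (h.mono c).injective (e1 m)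
    exact Fin.succAbove_left_injective (funext e2)
  have sm : ∀ (n : C × Fin 3 → ℝ) q b, ∑ x, n x * (if a x q b then 1 else 0) =
      ∑ k, if gap (ix (q.1, b)) q.2 k then n (X.cell (q.1, b), k) else 0 := by
    intro n q b
    rw [Fintype.sum_prod_type, Finset.sum_eq_single (X.cell (q.1, b))]
    · simp [a]
    · intro c _ hc
      simp [a, hc.symm]
    · simp
  obtain ⟨y, hy⟩ := farkas_int
    (fun x q => (if a x q false then (1 : ℤ) else 0) - if a x q true then 1 else 0)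
    fun n hn e x => by
      refine nb (fun c k => n (c, k)) (fun w p =>
        ∑ k, if gap (ix (w, false)) p k then n (X.cell (w, false), k) else 0)
        (fun c k => hn _) (fun c i p => ?_) x.1 x.2
      have e1 := e ((f c i).1, p)
      push_cast at e1
      simp only [mul_sub, Finset.sum_sub_distrib, sm] at e1
      have e2 : ∀ b, (f c i).2 = b → (∑ k, if gap (ix ((f c i).1, b)) p k then
          n (X.cell ((f c i).1, b), k) else 0) = ∑ k, if gap i p k then n (c, k) else 0 := by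
        rintro b rfl
        rw [Prod.mk.eta, inj, h.cell]
      cases hb : (f c i).2
      · exact e2 _ hb
      · exact (sub_eq_zero.1 e1).trans (e2 _ hb)
  refine ⟨y, fun c s hs => ?_⟩
  obtain ⟨k, k1, k2⟩ : ∃ k : Fin 3, lv c k.castSucc ≤ s ∧ s < lv c k.succ := by
    by_cases e1 : s < lv c 1
    · exact ⟨0, (h.bot c).trans_le hs.1, e1⟩
    by_cases e2 : s < lv c 2
    · exact ⟨1, not_lt.1 e1, e2⟩
    · exact ⟨2, not_lt.1 e2, hs.2.trans_eq (h.top c).symm⟩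
  have key : ∀ q b, Act X Prod.fst (fun q : W × Fin 2 => mk q.1 q.2.castSucc)
      (fun q => mk q.1 q.2.succ) q b c s ↔ a (c, k) q b := by
    intro q b
    refine and_congr_right fun e => ?_
    have l := h.lev c (ix (q.1, b))
    rw [← e, hix, e] at l
    rw [mem_Ico, OrderIso.le_symm_apply, OrderIso.symm_apply_lt, l, l]
    refine and_congr ⟨fun u => ?_, fun u => ((h.mono c).monotone u).trans k1⟩
      ⟨fun u => (h.mono c).lt_iff_lt.1 (k1.trans_lt u), fun u => ?_⟩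
    · exact Fin.le_castSucc_iff.2 ((h.mono c).lt_iff_lt.1 (u.trans_lt k2))
    · exact k2.trans_le ((h.mono c).monotone (Fin.castSucc_lt_iff_succ_le.1 u))
  simp only [key]
  exact hy (c, k)

end Tet

end Pool.Agent.Work.MP_3d425c_gt.Sk
end

-- merged part: Pool.Agent.Work.MP_3d425c_gt.Md.Flow
section
/-! The flow with surplus. -/

namespace Pool.Agent.Work.MP_3d425c_gt.Md
open Set Relation Pool.Agent.Work.MP_3d425c_gt.Gn Pool.Agent.Work.MP_3d425c_gt.Cy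

variable {G X0 X1 X2 X3 : Type} [Group G] [MulAction G X0] [MulAction G X1] [MulAction G X2]
  [MulAction G X3] {T : Tri G X0 X1 X2 X3} {φ : X2 → ℝ ≃o ℝ}

theorem flow_pot {V : Type} [MulAction G V] (Ed : V → V → Prop) (h0 : NoHom G) (s : V → ℝ)
    (mono : ∀ u v, Ed u v → s u ≤ s v)
    (inv : ∀ (g : G) u v, Ed u v → s (g • v) - s (g • u) = s v - s u) {u v : V} (huv : Ed u v)
    (conn : ∀ g : G, EqvGen Ed u (g • u)) (rec : ∃ g : G, ReflTransGen Ed v (g • u)) :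
    s v = s u := by
  have key : ∀ (g : G) a b, EqvGen Ed a b → s (g • b) - s b = s (g • a) - s a := by
    intro g a b h
    induction h with
    | rel a b hab => linarith [inv g a b hab]
    | refl => rfl
    | symm _ _ _ ih => exact ih.symm
    | trans _ _ _ _ _ i1 i2 => exact i2.trans i1
  let χ : G →* Multiplicative ℝ :=
    { toFun := fun g => Multiplicative.ofAdd (s (g • u) - s u)
      map_one' := by simp
      map_mul' := fun g k => by
        rw [← ofAdd_add, mul_smul]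
        have := key g _ _ (conn k)
        exact congrArg _ (by linarith) }
  obtain ⟨g, hg⟩ := rec
  have e : s (g • u) - s u = 0 := by
    have := congrArg Multiplicative.toAdd (DFunLike.congr_fun (h0 χ) g)
    simpa [χ] using this
  have le : ∀ w, ReflTransGen Ed v w → s v ≤ s w := fun w hw => by
    induction hw with
    | refl => exact le_rfl
    | tail _ h ih => exact ih.trans (mono _ _ h)
  have := le _ hg
  have := mono u v huv
  linarith

theorem Tri.flow_conn (T : Tri G X0 X1 X2 X3) (f f' : X2) (i i' : Fin 3) (j j' : Fin 2) :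
    EqvGen (fun u v => ∃ e', T.d1 e' 1 = u ∧ T.d1 e' 0 = v) (T.d1 (T.d2 f i) j)
      (T.d1 (T.d2 f' i') j') := by
  set R := EqvGen (fun u v => ∃ e', T.d1 e' 1 = u ∧ T.d1 e' 0 = v) with hR
  have ed : ∀ e j, R (T.d1 e 1) (T.d1 e j) := fun e j => by
    fin_cases j
    · exact .rel _ _ ⟨e, rfl, rfl⟩
    · exact .refl _
  have fa : ∀ f i j, R (T.d1 (T.d2 f 2) 1) (T.d1 (T.d2 f i) j) := fun f i j => by
    refine .trans _ _ _ ?_ (ed _ j)
    fin_cases i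
    · exact (T.s2 f 0 1 (by decide) : T.d1 (T.d2 f 2) 0 = T.d1 (T.d2 f 0) 1) ▸ ed _ 0
    · exact (T.s2 f 1 1 le_rfl : T.d1 (T.d2 f 2) 1 = T.d1 (T.d2 f 1) 1) ▸ .refl _
    · exact .refl _
  have te : ∀ x k, R (T.d1 (T.d2 (T.d3 x 3) 2) 1) (T.d1 (T.d2 (T.d3 x k) 2) 1) := fun x k => by
    fin_cases k
    · exact (T.s3 x 0 2 (by decide) : T.d2 (T.d3 x 3) 0 = T.d2 (T.d3 x 0) 2) ▸ fa _ 0 1
    · exact (T.s3 x 1 2 (by decide) : T.d2 (T.d3 x 3) 1 = T.d2 (T.d3 x 1) 2) ▸ fa _ 1 1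
    · exact (T.s3 x 2 2 le_rfl : T.d2 (T.d3 x 3) 2 = T.d2 (T.d3 x 2) 2) ▸ fa _ 2 1
    · exact .refl _
  have co : ∀ x y, R (T.d1 (T.d2 (T.d3 x 3) 2) 1) (T.d1 (T.d2 (T.d3 y 3) 2) 1) := fun x y => by
    induction T.conn x y with
    | rel x y h =>
      obtain ⟨k, l, e⟩ := h
      exact .trans _ _ _ (te x k) (e ▸ .symm _ _ (te y l))
    | refl => exact .refl _
    | symm _ _ _ ih => exact .symm _ _ ih
    | trans _ _ _ _ _ i1 i2 => exact .trans _ _ _ i1 i2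
  obtain ⟨p, _, -, hp⟩ := T.two f
  obtain ⟨p', _, -, hp'⟩ := T.two f'
  obtain rfl := (hp p).2 (Or.inl rfl)
  obtain rfl := (hp' p').2 (Or.inl rfl)
  exact .trans _ _ _ (.symm _ _ (fa _ i j)) (.trans _ _ _ (.symm _ _ (te _ _))
    (.trans _ _ _ (co _ _) (.trans _ _ _ (te _ _) (fa _ i' j'))))

/-- Invariant non-negative weights of the two halves of the faces that fit together vanish. -/
theorem Tri.flow_zero (T : Tri G X0 X1 X2 X3) (hc : T.Cyc) (h0 : NoHom G) (l : X2 → Bool → ℝ)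
    (n : X3 → Fin 3 → ℝ) (hl : ∀ (g : G) f, l (g • f) = l f) (hn : ∀ x m, 0 ≤ n x m)
    (e0 : ∀ x, l (T.d3 x 0) false = n x 1 ∧ l (T.d3 x 0) true = n x 2)
    (e1 : ∀ x, l (T.d3 x 1) false = n x 0 + n x 1 ∧ l (T.d3 x 1) true = n x 2)
    (e2 : ∀ x, l (T.d3 x 2) false = n x 0 ∧ l (T.d3 x 2) true = n x 1 + n x 2)
    (e3 : ∀ x, l (T.d3 x 3) false = n x 0 ∧ l (T.d3 x 3) true = n x 1) (x : X3) (m : Fin 3) :
    n x m = 0 := by
  classical
  let len : X2 × Fin 3 → ℝ := fun p => ![l p.1 true, l p.1 false + l p.1 true, l p.1 false] p.2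
  have wd : ∀ p q : X2 × Fin 3, T.d2 p.1 p.2 = T.d2 q.1 q.2 → len p = len q := fun p q h => by
    have h' := T.link p q h
    clear h
    induction h' with
    | rel p q h =>
      obtain ⟨x, i, j, hij, rfl, rfl⟩ := h
      obtain ⟨a0, b0⟩ := e0 x
      obtain ⟨a1, b1⟩ := e1 x
      obtain ⟨a2, b2⟩ := e2 x
      obtain ⟨a3, b3⟩ := e3 x
      fin_cases i <;> fin_cases j <;> simp [len] at hij ⊢ <;> linarith
    | refl => rfl
    | symm _ _ _ ih => exact ih.symm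
    | trans _ _ _ _ _ i1 i2 => exact i1.trans i2
  let z : X1 → ℝ := fun e => if h : ∃ p : X2 × Fin 3, T.d2 p.1 p.2 = e then len h.choose else 0
  have hz : ∀ f i, z (T.d2 f i) = len (f, i) := fun f i => by
    have h : ∃ p : X2 × Fin 3, T.d2 p.1 p.2 = T.d2 f i := ⟨(f, i), rfl⟩
    simp only [z, dif_pos h]
    exact wd _ _ h.choose_spec
  have lp : ∀ f b, 0 ≤ l f b := fun f b => by
    obtain ⟨⟨x, k⟩, _, -, hp⟩ := T.two f
    obtain rfl := (hp (x, k)).2 (Or.inl rfl)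
    obtain ⟨a0, b0⟩ := e0 x
    obtain ⟨a1, b1⟩ := e1 x
    obtain ⟨a2, b2⟩ := e2 x
    obtain ⟨a3, b3⟩ := e3 x
    have := hn x 0
    have := hn x 1
    have := hn x 2
    fin_cases k <;> cases b <;> simp <;> linarith
  have zp : ∀ e, 0 ≤ z e := fun e => by
    by_cases h : ∃ p : X2 × Fin 3, T.d2 p.1 p.2 = e
    · obtain ⟨⟨f, i⟩, rfl⟩ := h
      rw [hz]
      have := lp f false
      have := lp f true
      fin_cases i <;> simp [len] <;> linarith
    · simp only [z, dif_neg h, le_refl]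
  have zi : ∀ (g : G) e, z (g • e) = z e := fun g e => by
    by_cases h : ∃ p : X2 × Fin 3, T.d2 p.1 p.2 = e
    · obtain ⟨⟨f, i⟩, rfl⟩ := h
      rw [← T.e2, hz, hz]
      simp only [len, hl]
    · have h' : ¬ ∃ p : X2 × Fin 3, T.d2 p.1 p.2 = g • e := fun ⟨p, hp⟩ =>
        h ⟨(g⁻¹ • p.1, p.2), by rw [T.e2, hp, inv_smul_smul]⟩
      simp only [z, dif_neg h, dif_neg h']
  obtain ⟨s, hs⟩ := T.h1 z fun f => by simp [hz, len]
  have z0 : ∀ f i, len (f, i) = 0 := fun f i => by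
    rw [← hz, hs, sub_eq_zero]
    refine flow_pot (G := G) (fun u v => ∃ e', T.d1 e' 1 = u ∧ T.d1 e' 0 = v) h0 s ?_ ?_
      ⟨_, rfl, rfl⟩ (fun g => ?_) (hc _)
    · rintro _ _ ⟨e, rfl, rfl⟩
      linarith [zp e, hs e]
    · rintro g _ _ ⟨e, rfl, rfl⟩
      rw [← T.e1, ← T.e1, ← hs, ← hs, zi]
    · rw [← T.e1, ← T.e2]
      exact T.flow_conn _ _ _ _ _ _
  have a := z0 (T.d3 x 3) 2
  have b := z0 (T.d3 x 3) 0
  have c := z0 (T.d3 x 0) 0
  simp only [len, Matrix.cons_val] at a b c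
  fin_cases m
  · exact (e3 x).1.symm.trans a
  · exact (e3 x).2.symm.trans b
  · exact (e0 x).2.symm.trans c

theorem Tri.flow (T : Tri G X0 X1 X2 X3) (hcy : T.Cyc) (h0 : NoHom G) : ∃ y, T.Flw y := by
  classical
  have := T.fin
  have := Fintype.ofFinite (Ob G X3)
  have hσ : ∀ p : X3 × Fin 4, ∃ q : X3 × Fin 4, ∀ r : X3 × Fin 4,
      r = q ↔ r ≠ p ∧ T.d3 r.1 r.2 = T.d3 p.1 p.2 := fun p => by
    obtain ⟨a, b, hab, h⟩ := T.two (T.d3 p.1 p.2)
    rcases (h p).1 rfl with rfl | rfl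
    · refine ⟨b, fun r => ⟨?_, fun e => ((h r).1 e.2).resolve_left e.1⟩⟩
      rintro rfl
      exact ⟨hab.symm, (h _).2 (Or.inr rfl)⟩
    · refine ⟨a, fun r => ⟨?_, fun e => ((h r).1 e.2).resolve_right e.1⟩⟩
      rintro rfl
      exact ⟨hab, (h _).2 (Or.inl rfl)⟩
  choose σ hσ using hσ
  have σσ : ∀ p, σ (σ p) = p := fun p =>
    ((hσ (σ p) p).2 ⟨((hσ p _).1 rfl).1.symm, ((hσ p _).1 rfl).2.symm⟩).symm
  have σg : ∀ (g : G) x k, σ (g • x, k) = (g • (σ (x, k)).1, (σ (x, k)).2) := fun g x k => by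
    obtain ⟨a, b⟩ := (hσ (x, k) _).1 rfl
    refine ((hσ _ _).2 ⟨fun e => a ?_, by simp only [T.e3, b]⟩).symm
    rw [Prod.ext_iff] at e ⊢
    exact ⟨smul_left_cancel g e.1, e.2⟩
  let τ : Ob G X3 × Fin 4 → Ob G X3 × Fin 4 := fun i =>
    (ob G (σ (i.1.out, i.2)).1, (σ (i.1.out, i.2)).2)
  have og : ∀ (g : G) (x : X3), ob G (g • x) = ob G x := fun g x => Quotient.sound ⟨g, rfl⟩
  have hτ : ∀ p : X3 × Fin 4, τ (ob G p.1, p.2) = (ob G (σ p).1, (σ p).2) := fun p => by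
    obtain ⟨g, hg⟩ : ∃ g : G, g • p.1 = (ob G p.1).out := Quotient.exact (ob G p.1).out_eq
    simp only [τ, ← hg, σg, og]
  have ττ : ∀ i, τ (τ i) = i := fun i => by
    obtain ⟨c, k⟩ := i
    induction c using Quotient.inductionOn' with
    | h x => exact (congrArg τ (hτ (x, k))).trans ((hτ _).trans (by rw [σσ]; rfl))
  let A : Fin 4 → Bool → Fin 3 → ℤ := fun k b m =>
    if b then ![![0, 0, 1], ![0, 0, 1], ![0, 1, 1], ![0, 1, 0]] k m
    else ![![0, 1, 0], ![1, 1, 0], ![1, 0, 0], ![1, 0, 0]] k m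
  let a : Ob G X3 × Fin 3 → Ob G X3 × Fin 4 → Bool → ℤ := fun c i b =>
    if i.1 = c.1 then A i.2 b c.2 else 0
  obtain ⟨w, hw⟩ := Sk.farkas_int
    (fun (c : Ob G X3 × Fin 3) (q : (Ob G X3 × Fin 4) × Bool) => a c q.1 q.2 - a c (τ q.1) q.2)
    fun n hn e c => by
      let val : Ob G X3 × Fin 4 → Bool → ℝ := fun i b => ∑ m, n (i.1, m) * A i.2 b m
      have sm : ∀ i b, ∑ c, n c * (a c i b : ℝ) = val i b := fun i b => by
        rw [Fintype.sum_prod_type, Finset.sum_eq_single i.1]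
        · simp [a, val]
        · intro c _ hc
          simp [a, hc.symm]
        · simp
      have bal : ∀ i, val (τ i) = val i := fun i => funext fun b => by
        have := e (i, b)
        push_cast at this
        simp only [mul_sub, Finset.sum_sub_distrib, sm] at this
        linarith
      choose pf qf _ hpf using T.two
      let l : X2 → Bool → ℝ := fun f => val (ob G (pf f).1, (pf f).2)
      have hl : ∀ x k, l (T.d3 x k) = val (ob G x, k) := fun x k => by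
        by_cases e : pf (T.d3 x k) = (x, k)
        · simp only [l, e]
        · simp only [l, (hσ (x, k) _).2 ⟨e, (hpf _ _).2 (Or.inl rfl)⟩]
          rw [← hτ, bal]
      obtain ⟨c, m⟩ := c
      induction c using Quotient.inductionOn' with
      | h x =>
        refine T.flow_zero hcy h0 l (fun x m => n (ob G x, m)) (fun g f => ?_) (fun _ _ => hn _)
          ?_ ?_ ?_ ?_ x m
        · rw [← (hpf f _).2 (Or.inl rfl), ← T.e3, hl, hl, og]
        all_goals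
          intro x
          simp [hl, val, A, Fin.sum_univ_three]
  let y : Ob G X3 × Fin 4 → Bool → ℤ := fun i b => w (i, b) - w (τ i, b)
  have pos : ∀ (x : X3) m, 0 < ∑ k, ∑ b, y (ob G x, k) b * A k b m := fun x m => by
    refine (hw (ob G x, m)).trans_eq ?_
    have e : ∑ q : (Ob G X3 × Fin 4) × Bool, w q * a (ob G x, m) (τ q.1) q.2 =
        ∑ q : (Ob G X3 × Fin 4) × Bool, w (τ q.1, q.2) * a (ob G x, m) q.1 q.2 :=
      Finset.sum_equiv ((Function.Involutive.toPerm τ ττ).prodCongr (Equiv.refl _)) (by simp)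
        fun q _ => by simp [ττ]
    simp only [mul_sub, Finset.sum_sub_distrib, e]
    rw [← Finset.sum_sub_distrib, Fintype.sum_prod_type, Fintype.sum_prod_type,
      Finset.sum_eq_single (ob G x)]
    · simp only [a, y, if_true, sub_mul]
    · intro c _ hc
      simp [a, hc]
    · simp
  refine ⟨fun x k => y (ob G x, k), fun g x => by simp only [og], fun x k x' k' ne e b => ?_,
    fun x => ?_, fun x => ?_, fun x => ?_⟩
  · have e1 : τ (ob G x, k) = (ob G x', k') := by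
      rw [hτ (x, k), ← (hσ (x, k) (x', k')).2 ⟨ne.symm, e.symm⟩]
    simp only [y, ← e1, ττ, neg_sub]
  · have := pos x 0
    simp [A, Fin.sum_univ_four] at this
    omega
  · have := pos x 1
    simp [A, Fin.sum_univ_four] at this
    omega
  · have := pos x 2
    simp [A, Fin.sum_univ_four] at this
    omega

end Pool.Agent.Work.MP_3d425c_gt.Md
end
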